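import Pool.Agent.Lib.MP_9d59e9_gt.ND.Spec

/-!
# MP_9d59e9_gt, project ND: the algebra
-/

set_option autoImplicit false

namespace Pool.Agent.Lib.MP_9d59e9_gt.ND

open scoped BigOperators ContDiff
open Set KO

noncomputable section

namespace AlAux

variable {V : Type}

/-- neighbours may be exchanged if at least four entries follow -/
def Sy (F : List V → ℝ) (N : ℕ) : Prop :=
  ∀ (u : List V) (a b : V) (l : List V), u.length + 2 + l.length = N → 4 ≤ l.length →
    F (u ++ a :: b :: l) = F (u ++ b :: a :: l)

theorem Sy.cons {F : List V → ℝ} {N : ℕ} (h : Sy F (N + 1)) (x : V) : Sy (fun l => F (x :: l)) N := by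
  intro u a b l h1 h2
  exact h (x :: u) a b l (by rw [List.length_cons]; omega) h2

theorem mvx {m : List V} (hm : 4 ≤ m.length) (c : V) (W : List V) : ∀ F : List V → ℝ,
    Sy F (W.length + 1 + m.length) → F (W ++ c :: m) = F (c :: (W ++ m)) := by
  induction W with
  | nil =>
    intro F _
    rfl
  | cons x W ih =>
    intro F h
    have h' : Sy F (W.length + 1 + m.length + 1) := by
      have e : (x :: W).length + 1 + m.length = W.length + 1 + m.length + 1 := by
        rw [List.length_cons]
        omega
      rw [← e]
      exact h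
    have h1 := ih (fun l => F (x :: l)) (h'.cons x)
    have h2 := h' [] x c (W ++ m) (by rw [List.length_append, List.length_nil]; omega)
      (by rw [List.length_append]; omega)
    exact h1.trans h2

theorem dS_rep {m : List V} (hm : 4 ≤ m.length) (z w : V) (j : ℕ) : ∀ F : List V → ℝ,
    Sy F (j + m.length) → dS (fun l => F (l ++ m)) (List.replicate j z) (List.replicate j w)
      = j * F (w :: (List.replicate (j - 1) z ++ m)) := by
  induction j with
  | zero =>
    intro F _
    simp [dS]
  | succ j ih =>
    intro F h
    have h' : Sy F (j + m.length + 1) := by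
      have e : j + 1 + m.length = j + m.length + 1 := by omega
      rw [← e]
      exact h
    have h1 := ih (fun l => F (z :: l)) (h'.cons z)
    rw [List.replicate_succ, List.replicate_succ]
    show F (w :: (List.replicate j z ++ m))
      + dS (fun l => F (z :: (l ++ m))) (List.replicate j z) (List.replicate j w) = _
    rw [h1]
    cases j with
    | zero => simp
    | succ i =>
      have h2 := h' [] z w (List.replicate i z ++ m)
        (by rw [List.length_append, List.length_nil, List.length_replicate]; omega)
        (by rw [List.length_append]; omega)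
      have h3 : F (z :: w :: (List.replicate (i + 1 - 1) z ++ m))
          = F (w :: (List.replicate (i + 1) z ++ m)) := by
        rw [Nat.add_sub_cancel, List.replicate_succ]
        exact h2
      rw [h3, Nat.add_sub_cancel]
      push_cast
      ring

theorem lin_zero [AddCommGroup V] [Module ℝ V] {f : V → ℝ} (h : Lin1 f) : f 0 = 0 := by
  have := h.smul 0 0
  rw [zero_smul, zero_mul] at this
  exact this

end AlAux

open AlAux in
theorem tAl (h1 : I_La) (h2 : S_Pl) : S_Al := by
  intro V _ _ B k F hB hproj hk hM hs hc hb hE
  obtain ⟨happ, -, -, -, -, hcons, -⟩ := h1 V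
  obtain ⟨hder, hpol⟩ := h2 V
  have hsy : Sy F (k + 4) := hs
  -- the submodule `E`
  let E : Submodule ℝ V :=
    { carrier := {a | ∀ l : List V, l.length = k + 3 → F (a :: l) = 0}
      zero_mem' := fun l hl => lin_zero ((hcons F (k + 3) hM).2 l hl)
      add_mem' := fun {a b} ha hb l hl => by
        rw [((hcons F (k + 3) hM).2 l hl).add, ha l hl, hb l hl, add_zero]
      smul_mem' := fun r a ha l hl => by
        rw [((hcons F (k + 3) hM).2 l hl).smul, ha l hl, mul_zero] }
  have hEm : ∀ e ∈ E, ∀ l : List V, l.length = k + 3 → F (e :: l) = 0 := fun e he => he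
  -- (i)
  have hi : ∀ v, (∀ e ∈ E, B v e = 0) → ∀ z a b, F (List.replicate k z ++ [a, b, z, v]) = 0 := by
    intro v hv z a b
    obtain ⟨y, hy1, hy2⟩ := hE z a b
    rw [← hy1 v, hB.symm]
    exact hv y hy2
  have hml4 : ∀ (z a b c d : V),
      Lin1 fun a => F (List.replicate k z ++ [a, b, c, d]) := fun z a b c d =>
    hM (List.replicate k z) [b, c, d] (by simp)
  have hml3 : ∀ (z a b d : V), Lin1 fun c => F (List.replicate k z ++ [a, b, c, d]) := by
    intro z a b d
    have := hM (List.replicate k z ++ [a, b]) [d] (by simp)
    refine ⟨fun c c' => ?_, fun r c => ?_⟩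
    · have h := this.add c c'
      simpa using h
    · have h := this.smul r c
      simpa using h
  have hml2 : ∀ (z a c d : V), Lin1 fun b => F (List.replicate k z ++ [a, b, c, d]) := by
    intro z a c d
    have := hM (List.replicate k z ++ [a]) [c, d] (by simp)
    refine ⟨fun b b' => ?_, fun r b => ?_⟩
    · have h := this.add b b'
      simpa using h
    · have h := this.smul r b
      simpa using h
  have hml1 : ∀ (z a b c : V), Lin1 fun d => F (List.replicate k z ++ [a, b, c, d]) := by
    intro z a b c
    have := hM (List.replicate k z ++ [a, b, c]) [] (by simp)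
    refine ⟨fun b b' => ?_, fun r b => ?_⟩
    · have h := this.add b b'
      simpa using h
    · have h := this.smul r b
      simpa using h
  -- (ii)
  have hii : ∀ v, (∀ e ∈ E, B v e = 0) → ∀ z w a b,
      (k : ℝ) * F (w :: (List.replicate (k - 1) z ++ [a, b, z, v]))
        + F (List.replicate k z ++ [a, b, w, v]) = 0 := by
    intro v hv z w a b
    have hd := hder (List.replicate k (z, w) ++ [(a, 0), (b, 0), (z, w), (v, 0)]) F (by
      simpa using hM)
    have hz : (fun t : ℝ => F ((List.replicate k (z, w) ++ [(a, 0), (b, 0), (z, w), (v, 0)]).map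
        fun e => e.1 + t • e.2)) = fun _ => 0 := by
      funext t
      have h := hi v hv (z + t • w) a b
      simpa using h
    rw [hz] at hd
    have h0 := hd.unique (hasDerivAt_const (0 : ℝ) (0 : ℝ))
    rw [List.map_append, List.map_append, List.map_replicate, List.map_replicate,
      happ _ _ _ _ _ (by simp)] at h0
    have h3 : dS (fun l => F (List.replicate k z ++ l)) [a, b, z, v] [0, 0, w, 0]
        = F (List.replicate k z ++ [a, b, w, v]) := by
      show F (List.replicate k z ++ [0, b, z, v]) + (F (List.replicate k z ++ [a, 0, z, v])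
        + (F (List.replicate k z ++ [a, b, w, v]) + (F (List.replicate k z ++ [a, b, z, 0]) + 0))) = _
      rw [lin_zero (hml4 z a b z v), lin_zero (hml2 z a z v), lin_zero (hml1 z a b z)]
      ring
    have h4 := dS_rep (m := [a, b, z, v]) (by simp) z w k F (by simpa using hsy)
    have h5 : dS (fun l => F (l ++ [a, b, z, v])) (List.replicate k z) (List.replicate k w)
        + dS (fun l => F (List.replicate k z ++ l)) [a, b, z, v] [0, 0, w, 0] = 0 := h0
    rw [h3, h4] at h5
    exact h5
  have hkr : (k : ℝ) ≠ 0 := by
    have : (0 : ℝ) < k := by exact_mod_cast hk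
    exact this.ne'
  -- move the last letter to the front
  have hmv : ∀ (z c a b c' d' : V), F (List.replicate (k - 1) z ++ [c, a, b, c', d'])
      = F (c :: (List.replicate (k - 1) z ++ [a, b, c', d'])) := by
    intro z c a b c' d'
    refine mvx (m := [a, b, c', d']) (by simp) c (List.replicate (k - 1) z) F ?_
    have e : (List.replicate (k - 1) z).length + 1 + [a, b, c', d'].length = k + 4 := by
      rw [List.length_replicate]
      simp
      omega
    rw [e]
    exact hsy
  have hcons1 : ∀ (z : V) (m : List V), z :: (List.replicate (k - 1) z ++ m)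
      = List.replicate k z ++ m := by
    intro z m
    obtain ⟨j, rfl⟩ : ∃ j, k = j + 1 := ⟨k - 1, by omega⟩
    rw [Nat.add_sub_cancel, List.replicate_succ]
    rfl
  have hcl : ∀ (z c : V), (c :: List.replicate (k - 1) z).length = k := fun z c => by
    rw [List.length_cons, List.length_replicate]
    omega
  have hzl : ∀ z : V, (List.replicate k z).length = k := fun z => List.length_replicate
  have hbi : ∀ (z a b c d : V), F (List.replicate k z ++ [a, b, c, d])
      + F (a :: (List.replicate (k - 1) z ++ [b, z, c, d]))
      + F (b :: (List.replicate (k - 1) z ++ [z, a, c, d])) = 0 := by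
    intro z a b c d
    have h := hb (List.replicate (k - 1) z) z a b c d (by rw [List.length_replicate]; omega)
    rw [hmv, hmv, hmv, hcons1] at h
    exact h
  -- (iii)
  have hiii : ∀ v w, (∀ e ∈ E, B v e = 0) → (∀ e ∈ E, B w e = 0) → ∀ z a b,
      F (List.replicate k z ++ [a, b, w, v]) = 0 := by
    intro v w hv hw z a b
    have h := hbi z w v a b
    have e1 : F (List.replicate k z ++ [w, v, a, b]) = F (List.replicate k z ++ [a, b, w, v]) :=
      (hc (List.replicate k z) (hzl z)).sw a b w v
    have e2 : F (w :: (List.replicate (k - 1) z ++ [v, z, a, b]))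
        = -F (w :: (List.replicate (k - 1) z ++ [a, b, z, v])) := by
      have c1 := (hc (w :: List.replicate (k - 1) z) (hcl z w)).sw a b v z
      have c2 := (hc (w :: List.replicate (k - 1) z) (hcl z w)).a34 a b z v
      exact c1.trans c2
    have e3 : F (v :: (List.replicate (k - 1) z ++ [z, w, a, b]))
        = F (v :: (List.replicate (k - 1) z ++ [a, b, z, w])) :=
      (hc (v :: List.replicate (k - 1) z) (hcl z v)).sw a b z w
    have e4 : F (List.replicate k z ++ [a, b, v, w]) = -F (List.replicate k z ++ [a, b, w, v]) :=
      (hc (List.replicate k z) (hzl z)).a34 a b w v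
    have f1 := hii v hv z w a b
    have f2 := hii w hw z v a b
    rw [e1, e2, e3] at h
    rw [e4] at f2
    have hk0 : (0 : ℝ) < k := by exact_mod_cast hk
    have g1 : ((k : ℝ) + 2) * F (List.replicate k z ++ [a, b, w, v]) = 0 := by
      linear_combination (k : ℝ) * h + f1 - f2
    rcases mul_eq_zero.1 g1 with g | g
    · exfalso
      linarith
    · exact g
  -- (iv)
  have hiv : ∀ v e, (∀ e ∈ E, B v e = 0) → e ∈ E → ∀ z a b,
      F (List.replicate k z ++ [a, b, e, v]) = 0 := by
    intro v e hv he z a b
    have h := hii v hv z e a b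
    rw [hEm e he _ (by rw [List.length_append, List.length_replicate]; simp; omega), mul_zero,
      zero_add] at h
    exact h
  -- (v)
  have hv5 : ∀ v, (∀ e ∈ E, B v e = 0) → ∀ z a b c,
      F (List.replicate k z ++ [a, b, c, v]) = 0 := by
    intro v hv z a b c
    obtain ⟨u, hu, hcu⟩ := hproj E c
    have e : c = u + (c - u) := by abel
    rw [e, (hml3 z a b v).add, hiv v u hv hu, hiii v (c - u) hv hcu, add_zero]
  -- (vi)
  have hvi : ∀ c d, c ∈ E → d ∈ E → ∀ z a b, F (List.replicate k z ++ [a, b, c, d]) = 0 := by
    intro c d hcE hdE z a b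
    have h := hbi z c d a b
    rw [hEm c hcE _ (by rw [List.length_append, List.length_replicate]; simp; omega),
      hEm d hdE _ (by rw [List.length_append, List.length_replicate]; simp; omega), add_zero,
      add_zero] at h
    have e1 := (hc (List.replicate k z) (hzl z)).sw a b c d
    exact e1.symm.trans h
  have hall : ∀ z a b c d, F (List.replicate k z ++ [a, b, c, d]) = 0 := by
    intro z a b c d
    obtain ⟨u, hu, hdu⟩ := hproj E d
    have e : d = u + (d - u) := by abel
    have e2 : F (List.replicate k z ++ [a, b, c, u]) = 0 := by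
      have e3 : F (List.replicate k z ++ [a, b, c, u]) = -F (List.replicate k z ++ [a, b, u, c]) :=
        (hc (List.replicate k z) (hzl z)).a34 a b u c
      obtain ⟨u', hu', hcu⟩ := hproj E c
      have e4 : c = u' + (c - u') := by abel
      have e5 : F (List.replicate k z ++ [a, b, u, c]) = 0 := by
        rw [e4, (hml1 z a b u).add, hvi u u' hu hu', hv5 (c - u') hcu, add_zero]
      rw [e3, e5, neg_zero]
    rw [e, (hml1 z a b c).add, e2, hv5 (d - u) hdu, add_zero]
  intro l hl
  have hl4 : (l.drop k).length = 4 := by
    rw [List.length_drop]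
    omega
  obtain ⟨a, b, c, d, he⟩ : ∃ a b c d, l.drop k = [a, b, c, d] := by
    generalize l.drop k = l0 at hl4
    obtain _ | ⟨a, l1⟩ := l0
    · simp at hl4
    obtain _ | ⟨b, l2⟩ := l1
    · simp at hl4
    obtain _ | ⟨c, l3⟩ := l2
    · simp at hl4
    obtain _ | ⟨d, l4⟩ := l3
    · simp at hl4
    obtain _ | ⟨e, l5⟩ := l4
    · exact ⟨a, b, c, d, rfl⟩
    · simp at hl4
  have hfin := hpol k F [a, b, c, d] hM (fun u a' b' l' hl' => hs u a' b' (l' ++ [a, b, c, d])
    (by rw [List.length_append]; simp; omega) (by rw [List.length_append]; simp))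
    (fun z => hall z a b c d) (l.take k) (by rw [List.length_take]; omega)
  rw [← he, List.take_append_drop] at hfin
  exact hfin

end

end Pool.Agent.Lib.MP_9d59e9_gt.ND
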