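import Pool.Agent.Lib.MP_9d59e9_gt.ND.Spec

/-!
# MP_9d59e9_gt, project ND: all letters commute
-/

set_option autoImplicit false

namespace Pool.Agent.Lib.MP_9d59e9_gt.ND

open scoped BigOperators ContDiff
open Set KO

noncomputable section

theorem tCm (h1 : I_Sd) (h2 : I_Sr) (h3 : S_Kv) : S_Cm := by
  intro n g U hU s hs1 hs
  have key : ∀ (k : ℕ) (u : List (Pt n)), u.length = k → ∀ x ∈ U, ∀ (a b : Pt n)
      (l : List (Pt n)), 4 ≤ l.length → S g x (u ++ a :: b :: l) = S g x (u ++ b :: a :: l) := by
    intro k
    induction k with
    | zero =>
      intro u hu x hx a b l hl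
      obtain rfl : u = [] := List.length_eq_zero_iff.1 hu
      have hr := h2 n g U hU x hx a b l hl
      have hk := h3 n g U hU s hs1 hs x hx a b l.length hl l rfl
      rw [hk, neg_zero, sub_eq_zero] at hr
      simpa using hr
    | succ k ih =>
      intro u hu x hx a b l hl
      obtain _ | ⟨X, u'⟩ := u
      · simp at hu
      have hu' : u'.length = k := by
        rw [List.length_cons] at hu
        omega
      have hd1 := (h1 n g U hU x hx X).2 (u' ++ a :: b :: l) (by
        simp only [List.length_append, List.length_cons]; omega)
      have hd2 := (h1 n g U hU x hx X).2 (u' ++ b :: a :: l) (by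
        simp only [List.length_append, List.length_cons]; omega)
      have hopen : IsOpen U := hU.isOpen
      have hcont : Continuous fun t : ℝ => x + t • X := by fun_prop
      have hmem : ∀ᶠ t : ℝ in nhds 0, x + t • X ∈ U := by
        refine hcont.continuousAt.eventually_mem (hopen.mem_nhds ?_)
        simpa using hx
      have hev : (fun t : ℝ => S g (x + t • X) ((u' ++ a :: b :: l).map (mv g x X t)))
          =ᶠ[nhds 0] fun t : ℝ => S g (x + t • X) ((u' ++ b :: a :: l).map (mv g x X t)) := by
        filter_upwards [hmem] with t ht
        rw [List.map_append, List.map_append, List.map_cons, List.map_cons, List.map_cons,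
          List.map_cons]
        exact ih (u'.map (mv g x X t)) (by rw [List.length_map, hu']) (x + t • X) ht _ _ _
          (by rw [List.length_map]; exact hl)
      have h := hd1.unique (hd2.congr_of_eventuallyEq hev)
      simpa only [List.cons_append] using h
  intro u x hx a b l hl
  exact key u.length u rfl x hx a b l hl

end

end Pool.Agent.Lib.MP_9d59e9_gt.ND
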