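import Pool.Agent.Lib.MP_9d59e9_gt.ND.Spec

set_option autoImplicit false

namespace Pool.Agent.Lib.MP_9d59e9_gt.ND

open scoped BigOperators ContDiff
open Set KO

noncomputable section

namespace DmAux

/-- A linear function on matrices. -/
lemma lin_eq {n : ℕ} (f : Matrix (Fin n) (Fin n) ℝ →ₗ[ℝ] ℝ) (N : Matrix (Fin n) (Fin n) ℝ) :
    f N = ∑ i, ∑ j, f (Matrix.single i j 1) * N i j := by
  conv_lhs => rw [Matrix.matrix_eq_sum_single N]
  simp only [map_sum]
  refine Finset.sum_congr rfl fun i _ => Finset.sum_congr rfl fun j _ => ?_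
  have : Matrix.single i j (N i j) = N i j • Matrix.single i j (1 : ℝ) := by
    rw [Matrix.smul_single, smul_eq_mul, mul_one]
  rw [this, map_smul, smul_eq_mul, mul_comm]

/-- The map `E ↦ Eᵀ g`. -/
def L {n : ℕ} (G : Matrix (Fin n) (Fin n) ℝ) :
    Matrix (Fin n) (Fin n) ℝ →ₗ[ℝ] Matrix (Fin n) (Fin n) ℝ where
  toFun E := E.transpose * G
  map_add' A B := by simp [Matrix.add_mul]
  map_smul' c A := by simp

/-- Sums of multilinear functions. -/
lemma lin_sum {n : ℕ} {V : Type} [AddCommGroup V] [Module ℝ V] (C : Fin n → Fin n → ℝ)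
    (F : Fin n → Fin n → V → ℝ) (hF : ∀ i j, Lin1 (F i j)) :
    Lin1 fun a => ∑ i, ∑ j, C i j * F i j a where
  add a b := by
    simp only [(hF _ _).add, mul_add, Finset.sum_add_distrib]
  smul r a := by
    simp only [(hF _ _).smul, Finset.mul_sum]
    exact Finset.sum_congr rfl fun i _ => Finset.sum_congr rfl fun j _ => by ring

/-- A list of length `k + 2`. -/
lemma split2 {α : Type} (c : List α) (k : ℕ) (h : c.length = k + 2) :
    ∃ (c' : List α) (m p : α), c = c' ++ [m, p] ∧ c'.length = k := by
  obtain ⟨m, p, hmp⟩ := List.length_eq_two.1 (show (c.drop k).length = 2 by simp [h])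
  exact ⟨c.take k, m, p, by rw [← hmp, List.take_append_drop], by simp [h]⟩

end DmAux

open DmAux in
theorem tDm (h1 : I_Ex) (h2 : I_Sb) (h3 : I_Sc) (h4 : I_Br1) : S_Dm := by
  intro n g Ω r hg x hx M hM
  by_contra hcon
  have hW : M ∉ (hol g r x).map (L (g x)) := by
    rintro ⟨E, hE, hEM⟩
    exact hcon ⟨E, hE, hEM.symm⟩
  obtain ⟨f, hfM, hfW⟩ := Submodule.exists_le_ker_of_notMem hW
  have hnul : Nul g r x fun i j => f (Matrix.single i j 1) := by
    intro w a b hw
    have hG : ∀ l : List (Pt n), l.length = w.length + 2 →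
        (fun l : List (Pt n) =>
          ∑ i, ∑ j, f (Matrix.single i j 1) * S g x (l ++ [bv i, bv j])) l = 0 := by
      refine h1 n (w.length + 2) _ ?_ ?_
      · intro l₁ l₂ hl
        refine lin_sum (fun i j => f (Matrix.single i j 1))
          (fun i j a => S g x ((l₁ ++ a :: l₂) ++ [bv i, bv j])) fun i j => ?_
        have h := (h2 n g x).2.1 (w.length + 4) (by omega) l₁ (l₂ ++ [bv i, bv j])
          (by simp; omega)
        simpa [List.append_assoc] using h
      · intro c' hc'
        obtain ⟨c, m, p, rfl, hc⟩ := split2 c' w.length hc'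
        have hE : Matrix.of (fun a b => nablaR g c.length a (c ++ [b, m, p]) x) ∈ hol g r x :=
          Submodule.subset_span ⟨c, m, p, by omega, rfl⟩
        have h0 := hfW (Submodule.mem_map_of_mem (f := L (g x)) hE)
        rw [LinearMap.mem_ker, lin_eq] at h0
        rw [← h0]
        refine Finset.sum_congr rfl fun i _ => Finset.sum_congr rfl fun j _ => ?_
        have h5 := h4 n g Ω hg x hx c m p i j
        have h6 : (c ++ [m, p]).map (fun i => (bv i : Pt n)) ++ [bv i, bv j]
            = (c ++ [m, p, i, j]).map fun i => bv i := by simp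
        rw [h6, h5]
        congr 1
        simp only [L, LinearMap.coe_mk, AddHom.coe_mk, Matrix.mul_apply, Matrix.transpose_apply,
          Matrix.of_apply]
        exact Finset.sum_congr rfl fun e _ => mul_comm _ _
    have h7 := hG (w ++ [a, b]) (by simp)
    beta_reduce at h7
    rw [← h7]
    refine Finset.sum_congr rfl fun i _ => Finset.sum_congr rfl fun j _ => ?_
    have h8 := (h3 n g Ω hg x hx w).1.sw a b (bv i) (bv j)
    beta_reduce at h8
    rw [h8]
    simp [List.append_assoc]
  exact hfM (by rw [lin_eq]; exact hM _ hnul)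

end

end Pool.Agent.Lib.MP_9d59e9_gt.ND
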