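import Pool.Agent.Lib.MP_9d59e9_gt.ND.Spec

/-!
# MP_9d59e9_gt, project ND: the rank condition gives Nd
-/

set_option autoImplicit false

namespace Pool.Agent.Lib.MP_9d59e9_gt.ND

open scoped BigOperators ContDiff
open Set KO

noncomputable section

namespace DuAux

theorem lin_zero {V : Type} [AddCommGroup V] [Module ℝ V] {f : V → ℝ} (hf : Lin1 f) : f 0 = 0 := by
  have h := hf.smul 0 (0 : V)
  rwa [zero_smul, zero_mul] at h

theorem lin_sum {V : Type} [AddCommGroup V] [Module ℝ V] {f : V → ℝ} (hf : Lin1 f) {ι : Type}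
    (s : Finset ι) (c : ι → ℝ) (w : ι → V) : f (∑ i ∈ s, c i • w i) = ∑ i ∈ s, c i * f (w i) := by
  classical
  induction s using Finset.induction_on with
  | empty => rw [Finset.sum_empty, Finset.sum_empty, lin_zero hf]
  | insert a s ha ih =>
    rw [Finset.sum_insert ha, Finset.sum_insert ha, hf.add, hf.smul, ih]

theorem vec_sum {n : ℕ} (u : Pt n) : u = ∑ i, u i • (bv i : Pt n) := by
  funext k
  rw [Finset.sum_apply, Finset.sum_eq_single k]
  · have h : (bv k : Pt n) k = 1 := by simp [bv]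
    rw [Pi.smul_apply, smul_eq_mul, h, mul_one]
  · intro b _ hb
    have h : (bv b : Pt n) k = 0 := by simp [bv, hb.symm]
    rw [Pi.smul_apply, smul_eq_mul, h, mul_zero]
  · intro h
    exact absurd (Finset.mem_univ k) h

theorem lin_vec {n : ℕ} {f : Pt n → ℝ} (hf : Lin1 f) (u : Pt n) : f u = ∑ i, u i * f (bv i) := by
  conv_lhs => rw [vec_sum u]
  exact lin_sum hf Finset.univ u fun i => bv i

end DuAux

/-- The rank condition gives `Nd`. -/
theorem tDu (h1 : S_Rk) (h2 : S_Dm) : S_Du := by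
  intro n g Ω r hg x hx hE τ σ hτ hσ hC
  obtain ⟨E, hEm, hM⟩ := h2 n g Ω r hg x hx
    (Matrix.of fun i j => τ (bv i) * σ (bv j) - τ (bv j) * σ (bv i)) (fun C hN => hC C hN)
  have hu : IsUnit (g x).det := (hg.pos x hx).det_pos.ne'.isUnit
  have hr : (Matrix.of fun i j => τ (bv i) * σ (bv j) - τ (bv j) * σ (bv i) :
      Matrix (Fin n) (Fin n) ℝ).rank ≠ 2 := by
    rw [hM, Matrix.rank_mul_eq_left_of_isUnit_det (g x) E.transpose hu, Matrix.rank_transpose]
    exact hE E hEm
  have h3 : ∀ i j, τ (bv i) * σ (bv j) = τ (bv j) * σ (bv i) :=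
    h1 n (fun i => τ (bv i)) (fun i => σ (bv i)) hr
  intro u v
  rw [DuAux.lin_vec hτ u, DuAux.lin_vec hσ v, DuAux.lin_vec hτ v, DuAux.lin_vec hσ u,
    Finset.sum_mul_sum, Finset.sum_mul_sum, Finset.sum_comm]
  refine Finset.sum_congr rfl fun j _ => Finset.sum_congr rfl fun i _ => ?_
  calc u i * τ (bv i) * (v j * σ (bv j)) = u i * v j * (τ (bv i) * σ (bv j)) := by ring
    _ = u i * v j * (τ (bv j) * σ (bv i)) := by rw [h3 i j]
    _ = v j * τ (bv j) * (u i * σ (bv i)) := by ring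

end

end Pool.Agent.Lib.MP_9d59e9_gt.ND
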