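import Pool.Agent.Lib.MP_9d59e9_gt.ND.Spec

/-! # MP_9d59e9_gt, project ND, module En (helper36) -/

set_option autoImplicit false

namespace Pool.Agent.Lib.MP_9d59e9_gt.ND

open scoped BigOperators ContDiff
open Set KO

noncomputable section

theorem tEn (h1 : I_Br1) : S_En := by
  intro n g Ω hg x hx hz a c b m q
  have hdet : (g x).det ≠ 0 := (hg.pos x hx).det_pos.ne'
  have h : Matrix.vecMul (fun e => nablaR g 1 e [c, b, m, q] x) (g x) = 0 := by
    funext d
    have h2 := h1 n g Ω hg x hx [c] m q b d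
    rw [hz _ (by simp)] at h2
    refine Eq.trans ?_ h2.symm
    change ∑ e, nablaR g 1 e [c, b, m, q] x * g x e d =
      ∑ e, g x e d * nablaR g 1 e [c, b, m, q] x
    exact Finset.sum_congr rfl fun e _ => mul_comm _ _
  exact congrFun (Matrix.eq_zero_of_vecMul_eq_zero hdet h) a

end

end Pool.Agent.Lib.MP_9d59e9_gt.ND
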