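import Pool.Agent.Lib.MP_9d59e9_gt.ND.Spec

/-!
# MP_9d59e9_gt, project ND: F1
-/

set_option autoImplicit false

namespace Pool.Agent.Lib.MP_9d59e9_gt.ND

open scoped BigOperators ContDiff
open Set KO

noncomputable section

namespace F1Aux

theorem spl_sum {V : Type} : ∀ (Z : List V) (f : List V × List V → ℝ),
    (∀ A B : List V, B ≠ [] → f (A, B) = 0) → ((spl Z).map f).sum = f (Z, [])
  | [], f, _ => by simp [spl]
  | z :: Z, f, h => by
    have h1 := spl_sum Z (fun e => f (z :: e.1, e.2)) (fun A B hB => h (z :: A) B hB)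
    have h2 : ((spl Z).map (fun e => f (e.1, z :: e.2))).sum = 0 := by
      apply List.sum_eq_zero
      intro y hy
      rw [List.mem_map] at hy
      obtain ⟨e, _, rfl⟩ := hy
      exact h _ _ (List.cons_ne_nil _ _)
    simp only [spl, List.map_append, List.map_map, List.sum_append]
    have e1 : (f ∘ fun e : List V × List V => (z :: e.1, e.2)) =
        fun e => f (z :: e.1, e.2) := rfl
    have e2 : (f ∘ fun e : List V × List V => (e.1, z :: e.2)) =
        fun e => f (e.1, z :: e.2) := rfl
    rw [e1, e2, h1, h2, add_zero]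

theorem dS_zero {V : Type} : ∀ (l m : List V), dS (fun _ => (0 : ℝ)) l m = 0
  | [], m => by cases m <;> simp [dS]
  | a :: l, [] => by simp [dS]
  | a :: l, b :: m => by
    simp only [dS, zero_add]
    exact dS_zero l m

end F1Aux

theorem tF1 (h1 : I_La) (h2 : S_Lz) (h3 : S_Up) (h4 : S_Cm) : S_F1 := by
  intro n g U hU s hs hZ x hx Z a b l hZl hl
  have e1 := h2 n g U hU Z x hx a b l (by omega)
  have e2 := h4 n g U hU s hs hZ Z x hx a b l (by omega)
  rw [e2, sub_self] at e1
  have e3 := F1Aux.spl_sum Z (fun e => TT g x e.1 e.2 a b l) (by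
    intro A B hB
    show dS (fun l' => S g x (B ++ l')) l (l.map fun c => Rw g x A a b c) = 0
    rw [(h1 (Pt n)).2.1 (fun l' => S g x (B ++ l')) (fun _ => (0 : ℝ)) l
      (l.map fun c => Rw g x A a b c) (by simp) (by
        intro l' hl'
        have hB1 : 1 ≤ B.length := List.length_pos_iff.2 hB
        have hk := h3 n g U hU s hZ (B.length + l'.length - 4) (by omega) x hx
        exact hk (B ++ l') (by rw [List.length_append]; omega))]
    exact F1Aux.dS_zero _ _)
  rw [e3] at e1
  have e4 : TT g x Z [] a b l = 0 := by linarith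
  exact e4

end

end Pool.Agent.Lib.MP_9d59e9_gt.ND
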