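import Pool.Agent.Lib.MP_9d59e9_gt.ND.Spec

/-!
# MP_9d59e9_gt, project ND, F2: the vector `(∇_z^(s-1) R)(a,b)z` is in the kernel
-/

set_option autoImplicit false

namespace Pool.Agent.Lib.MP_9d59e9_gt.ND

open scoped BigOperators ContDiff
open Set KO

noncomputable section

namespace F2Aux

theorem spl_len {V : Type} : ∀ (Z : List V) (e : List V × List V), e ∈ spl Z →
    e.1.length + e.2.length = Z.length := by
  intro Z
  induction Z with
  | nil =>
    intro e he
    simp only [spl, List.mem_singleton] at he
    subst he
    rfl
  | cons a u ih =>
    intro e he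
    simp only [spl, List.mem_append, List.mem_map] at he
    rcases he with ⟨e', he', rfl⟩ | ⟨e', he', rfl⟩
    · have h := ih e' he'
      simp only [List.length_cons]
      omega
    · have h := ih e' he'
      simp only [List.length_cons]
      omega

theorem sum_zero {α : Type} (L : List α) (f : α → ℝ) (h : ∀ e ∈ L, f e = 0) :
    (L.map f).sum = 0 := by
  induction L with
  | nil => rfl
  | cons a u ih =>
    rw [List.map_cons, List.sum_cons, h a List.mem_cons_self,
      ih fun e he => h e (List.mem_cons_of_mem a he), add_zero]

theorem splA {V : Type} : ∀ (Z : List V) (f : List V × List V → ℝ),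
    (∀ e : List V × List V, e.1.length + e.2.length = Z.length → e.2 ≠ [] → f e = 0) →
    ((spl Z).map f).sum = f (Z, []) := by
  intro Z
  induction Z with
  | nil =>
    intro f _
    simp only [spl, List.map_cons, List.map_nil, List.sum_cons, List.sum_nil, add_zero]
  | cons a u ih =>
    intro f hf
    simp only [spl, List.map_append, List.sum_append, List.map_map]
    have h1 : ((spl u).map (f ∘ fun e => (a :: e.1, e.2))).sum = f (a :: u, []) :=
      ih (f ∘ fun e => (a :: e.1, e.2)) fun e he h2 =>
        hf (a :: e.1, e.2) (by simp only [List.length_cons]; omega) h2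
    have h2 : ((spl u).map (f ∘ fun e => (e.1, a :: e.2))).sum = 0 :=
      sum_zero _ _ fun e he => by
        have h3 := spl_len u e he
        exact hf (e.1, a :: e.2) (by simp only [List.length_cons]; omega)
          (List.cons_ne_nil a e.2)
    rw [h1, h2, add_zero]

theorem splB {V : Type} (z : V) : ∀ (k : ℕ) (f : List V × List V → ℝ),
    (∀ e : List V × List V, e.1.length + e.2.length = k → e.2.length ≠ 1 → f e = 0) →
    ((spl (List.replicate k z)).map f).sum = k * f (List.replicate (k - 1) z, [z]) := by
  intro k
  induction k with
  | zero =>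
    intro f hf
    simp only [List.replicate_zero, spl, List.map_cons, List.map_nil, List.sum_cons,
      List.sum_nil, add_zero]
    rw [hf ([], []) rfl (by simp)]
    simp
  | succ k ih =>
    intro f hf
    rw [List.replicate_succ]
    simp only [spl, List.map_append, List.sum_append, List.map_map]
    have h1 : ((spl (List.replicate k z)).map (f ∘ fun e => (z :: e.1, e.2))).sum
        = k * f (z :: List.replicate (k - 1) z, [z]) :=
      ih (f ∘ fun e => (z :: e.1, e.2)) fun e he h2 =>
        hf (z :: e.1, e.2) (by simp only [List.length_cons]; omega) h2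
    have h2 : ((spl (List.replicate k z)).map (f ∘ fun e => (e.1, z :: e.2))).sum
        = f (List.replicate k z, [z]) :=
      splA (List.replicate k z) (f ∘ fun e => (e.1, z :: e.2)) fun e he h2 => by
        rw [List.length_replicate] at he
        refine hf (e.1, z :: e.2) (by simp only [List.length_cons]; omega) ?_
        simp only [List.length_cons]
        have h3 := List.length_pos_of_ne_nil h2
        omega
    rw [h1, h2]
    rcases Nat.eq_zero_or_pos k with h0 | h0
    · subst h0
      simp
    · have h3 : z :: List.replicate (k - 1) z = List.replicate k z := by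
        rw [← List.replicate_succ]
        congr 1
        omega
      rw [h3, Nat.add_sub_cancel]
      push_cast
      ring

theorem dS_zero {V : Type} : ∀ (l m : List V), dS (fun _ => (0 : ℝ)) l m = 0 := by
  intro l
  induction l with
  | nil => intro m; simp only [dS]
  | cons a l ih =>
    intro m
    cases m with
    | nil => simp only [dS]
    | cons b m =>
      simp only [dS]
      rw [ih m, add_zero]

end F2Aux

open F2Aux

theorem tF2 (h1 : I_La) (h2 : I_Sb) (h3 : S_Rp) (h4 : S_Lz) (h5 : S_Up) (h6 : S_Cm)
    (h7 : S_F1) : S_F2 := by
  intro n g U hU s hs hZ x hx z a b l hl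
  obtain ⟨-, hLa2, hLa3, -, -, -, -⟩ := h1 (Pt n)
  obtain ⟨hSb1, hSb2, -, -⟩ := h2 n g x
  obtain ⟨hRp1, hRp2, -, -, -⟩ := h3 n g U hU x hx
  have hl4 : 4 ≤ l.length := by omega
  -- the Leibniz formula
  have hLz := h4 n g U hU (List.replicate s z) x hx a b l hl4
  have hCm := h6 n g U hU s (by omega) hZ (List.replicate s z) x hx a b l hl4
  have hsum : ((spl (List.replicate s z)).map fun e => TT g x e.1 e.2 a b l).sum = 0 := by
    rw [hCm, sub_self] at hLz
    linarith
  have hB := splB z s (fun e => TT g x e.1 e.2 a b l) (by
    intro e he he1
    rcases Nat.eq_zero_or_pos e.2.length with h0 | h0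
    · have h8 : e.2 = [] := List.eq_nil_of_length_eq_zero h0
      have h9 : ∀ v, Rw g x e.1 a b v = 0 := by
        intro v
        apply hRp2
        intro w
        rw [hRp1]
        have h10 : ip g x 0 w = 0 := by
          simp [ip]
        rw [h10]
        apply hZ x hx
        simp only [List.length_append, List.length_cons, List.length_nil]
        omega
      show dS (fun l' => S g x (e.2 ++ l')) l (l.map fun a' => Rw g x e.1 a b a') = 0
      rw [h8]
      apply hLa3
      · exact hSb2 l.length hl4
      · rw [List.length_map]
      · intro c hc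
        rw [List.mem_map] at hc
        obtain ⟨v, -, rfl⟩ := hc
        exact h9 v
    · show dS (fun l' => S g x (e.2 ++ l')) l (l.map fun a' => Rw g x e.1 a b a') = 0
      rw [hLa2 (fun l' => S g x (e.2 ++ l')) (fun _ => 0) l _ (by rw [List.length_map])]
      · exact dS_zero _ _
      · intro l' hl'
        have h8 := h5 n g U hU s hZ (e.2.length + s - 2) (by omega) x hx
        apply h8
        rw [List.length_append]
        omega)
  rw [hsum] at hB
  have hs0 : (s : ℝ) ≠ 0 := by
    have : 0 < s := by omega
    positivity
  have hT : TT g x (List.replicate (s - 1) z) [z] a b l = 0 := by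
    rcases mul_eq_zero.1 hB.symm with h | h
    · exact absurd h hs0
    · exact h
  have hF := h7 n g U hU s (by omega) hZ x hx (List.replicate (s - 1) z) a b (z :: l)
    (by rw [List.length_replicate]; omega) (by rw [List.length_cons, hl])
  have hF' : S g x (Rw g x (List.replicate (s - 1) z) a b z :: l)
      + dS (fun l' => S g x (z :: l')) l (l.map (Rw g x (List.replicate (s - 1) z) a b)) = 0 := hF
  have hT' : dS (fun l' => S g x (z :: l')) l
      (l.map (Rw g x (List.replicate (s - 1) z) a b)) = 0 := hT
  rw [hT', add_zero] at hF'
  exact hF'

end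

end Pool.Agent.Lib.MP_9d59e9_gt.ND
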