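import Pool.Agent.Lib.MP_9d59e9_gt.ND.Spec

/-!
# MP_9d59e9_gt, project ND: the final statement from its four ingredients
-/

set_option autoImplicit false

namespace Pool.Agent.Lib.MP_9d59e9_gt.ND

open scoped BigOperators ContDiff
open Set KO

noncomputable section

theorem tFin (h1 : I_Br2) (h2 : S_Du) (h3 : S_Mn) (h4 : S_En) : S_Fin := by
  intro n r g Ω hg t ht hd x hx a c b m q
  exact h4 n g Ω hg x hx
    (h3 n g Ω r (tT t) {x | ∀ E ∈ hol g r x, E.rank ≠ 2} hg hd
      (fun y hy hy2 => h2 n g Ω r hg y hy hy2) (fun y hy => h1 n g Ω r hg t ht y hy) x hx) a c b m q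

end

end Pool.Agent.Lib.MP_9d59e9_gt.ND
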