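import Pool.Agent.Lib.MP_9d59e9_gt.ND.Spec

/-!
# MP_9d59e9_gt, project ND: a curvature tensor `e ∧ ψ` vanishes
-/

set_option autoImplicit false

namespace Pool.Agent.Lib.MP_9d59e9_gt.ND

open scoped BigOperators ContDiff
open Set KO

noncomputable section

/-- **Fz**: a curvature tensor `e ∧ ψ` vanishes. -/
theorem tFz (h1 : KO.S_Onb) (_h2 : I_Sb) (h3 : I_Sc) : S_Fz := by
  intro n g Ω r hM p hp hNd w hw e he hz a b c d
  have hIP : IP (ip g p) := (h1 n g p (hM.pos p hp)).2.1
  obtain ⟨hC, -⟩ := h3 n g Ω hM p hp w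
  set R : Pt n → Pt n → Pt n → Pt n → ℝ := fun a b c d => S g p (w ++ [a, b, c, d]) with hR
  have hadd1 : ∀ x y z, R (x + y) z c d = R x z c d + R y z c d := fun x y z => (hC.lin z c d).add x y
  have hsm1 : ∀ (t : ℝ) x z, R (t • x) z c d = t * R x z c d := fun t x z => (hC.lin z c d).smul t x
  have ha12 : ∀ x y, R y x c d = -R x y c d := fun x y => hC.a12 x y c d
  have hadd2 : ∀ x y z, R z (x + y) c d = R z x c d + R z y c d := fun x y z => by
    rw [ha12 (x + y) z, ha12 x z, ha12 y z, hadd1]
    ring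
  have hsm2 : ∀ (t : ℝ) x z, R z (t • x) c d = t * R z x c d := fun t x z => by
    rw [ha12 (t • x) z, ha12 x z, hsm1]
    ring
  have hee : R e e c d = 0 := by
    have := ha12 e e
    linarith
  have hl : Lin1 fun z => ip g p e z := by
    constructor
    · intro u v
      show ip g p e (u + v) = ip g p e u + ip g p e v
      rw [hIP.symm e (u + v), hIP.symm e u, hIP.symm e v]
      exact (hIP.lin e).add u v
    · intro t u
      show ip g p e (t • u) = t * ip g p e u
      rw [hIP.symm e (t • u), hIP.symm e u]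
      exact (hIP.lin e).smul t u
  have hψ : Lin1 fun z => R e z c d := ⟨fun u v => hadd2 u v e, fun t u => hsm2 t u e⟩
  have hort : ∀ x, ip g p e (x + (-(ip g p e x)) • e) = 0 := fun x => by
    have e1 := hl.add x ((-(ip g p e x)) • e)
    have e2 := hl.smul (-(ip g p e x)) e
    rw [e1, e2, he]
    ring
  have key : ∀ x y, R x y c d = ip g p e x * R e y c d - ip g p e y * R e x c d := fun x y => by
    have e1 : R (x + (-(ip g p e x)) • e) (y + (-(ip g p e y)) • e) c d = 0 :=
      hz _ _ (hort x) (hort y) c d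
    rw [hadd1, hadd2, hadd2, hsm1, hsm1, hsm2, hsm2, hee, ha12 e x] at e1
    linarith
  have hN := hNd (fun z => ip g p e z) (fun z => R e z c d) hl hψ ?_
  · have e1 := hN a b
    have e2 := key a b
    show R a b c d = 0
    rw [e2]
    linarith
  · intro C hCN
    have e1 := hCN w c d hw
    refine Eq.trans ?_ e1
    refine Finset.sum_congr rfl fun i _ => Finset.sum_congr rfl fun j _ => ?_
    have e2 := key (bv i) (bv j)
    show _ = C i j * R (bv i) (bv j) c d
    rw [e2]

end

end Pool.Agent.Lib.MP_9d59e9_gt.ND
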