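import Pool.Agent.Lib.MP_9d59e9_gt.ND.Spec

/-!
# MP_9d59e9_gt, project ND: the last nonzero coefficient
-/

set_option autoImplicit false

namespace Pool.Agent.Lib.MP_9d59e9_gt.ND

open scoped BigOperators ContDiff
open Set KO

noncomputable section

namespace KqAux

/-- the summand number `m` of the equation -/
def tm {n : ℕ} (g : Pt n → Matrix (Fin n) (Fin n) ℝ) (τ : (m : ℕ) → TF n m) (p : Pt n) (m : ℕ)
    (L : List (Pt n)) : ℝ := el (τ m) p (L.take m) * S g p (L.drop m)

theorem take_lt {V : Type} (u l : List V) (a b : V) {m : ℕ} (h : m ≤ u.length) :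
    (u ++ a :: b :: l).take m = u.take m := List.take_append_of_le_length h

theorem drop_lt {V : Type} (u l : List V) (a b : V) {m : ℕ} (h : m ≤ u.length) :
    (u ++ a :: b :: l).drop m = u.drop m ++ a :: b :: l := List.drop_append_of_le_length h

theorem take_eq {V : Type} (u l : List V) (a b : V) :
    (u ++ a :: b :: l).take (u.length + 1) = u ++ [a] := by
  rw [List.take_append]
  simp

theorem drop_eq {V : Type} (u l : List V) (a b : V) :
    (u ++ a :: b :: l).drop (u.length + 1) = b :: l := by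
  rw [List.drop_append]
  simp

/-- the equation for the last nonzero coefficient, contracted with `C` -/
theorem key (h3 : S_Nl) {n : ℕ} {g : Pt n → Matrix (Fin n) (Fin n) ℝ} {Ω : Set (Pt n)} {r : ℕ}
    {τ : (m : ℕ) → TF n m} (hg : IsMetricOn g Ω) {p : Pt n} (hp : p ∈ Ω) (hE : EqR g r τ p)
    {q : ℕ} (hqr : q < r)
    (htop : ∀ m, q < m → m ≤ r → ∀ l : List (Pt n), l.length = m → el (τ m) p l = 0)
    (u l : List (Pt n)) (hu : u.length + 1 = q) (hl : l.length = r - q + 3)
    (C : Fin n → Fin n → ℝ) (hC : Nul g r p C) :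
    ∑ i, ∑ j, C i j * (el (τ q) p (u ++ [bv i]) * S g p (bv j :: l) -
      el (τ q) p (u ++ [bv j]) * S g p (bv i :: l)) = 0 := by
  have hlen : ∀ a b : Pt n, (u ++ a :: b :: l).length = r + 4 := by
    intro a b
    rw [List.length_append, List.length_cons, List.length_cons]
    omega
  have hE' : ∀ a b : Pt n, S g p (u ++ a :: b :: l) +
      ∑ m ∈ Finset.Icc 1 r, tm g τ p m (u ++ a :: b :: l) = 0 := fun a b => hE _ (hlen a b)
  have h0 := h3 n g Ω r hg p hp C hC u l (by omega) (by omega)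
  have hsum : ∑ m ∈ Finset.Icc 1 r, ∑ i, ∑ j, C i j * (tm g τ p m (u ++ bv i :: bv j :: l) -
      tm g τ p m (u ++ bv j :: bv i :: l)) = 0 := by
    have h5 : ∑ i, ∑ j, C i j * ((S g p (u ++ bv i :: bv j :: l) -
        S g p (u ++ bv j :: bv i :: l)) + ∑ m ∈ Finset.Icc 1 r,
          (tm g τ p m (u ++ bv i :: bv j :: l) - tm g τ p m (u ++ bv j :: bv i :: l))) = 0 := by
      refine Finset.sum_eq_zero fun i _ => Finset.sum_eq_zero fun j _ => ?_
      rw [Finset.sum_sub_distrib]
      have h6 := hE' (bv i) (bv j)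
      have h7 := hE' (bv j) (bv i)
      have h8 : (S g p (u ++ bv i :: bv j :: l) - S g p (u ++ bv j :: bv i :: l)) +
          (∑ m ∈ Finset.Icc 1 r, tm g τ p m (u ++ bv i :: bv j :: l) -
            ∑ m ∈ Finset.Icc 1 r, tm g τ p m (u ++ bv j :: bv i :: l)) = 0 := by
        linarith
      rw [h8, mul_zero]
    have h9 : ∑ m ∈ Finset.Icc 1 r, ∑ i, ∑ j, C i j * (tm g τ p m (u ++ bv i :: bv j :: l) -
        tm g τ p m (u ++ bv j :: bv i :: l)) = ∑ i, ∑ j, C i j * ∑ m ∈ Finset.Icc 1 r,
          (tm g τ p m (u ++ bv i :: bv j :: l) - tm g τ p m (u ++ bv j :: bv i :: l)) := by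
      rw [Finset.sum_comm]
      refine Finset.sum_congr rfl fun i _ => ?_
      rw [Finset.sum_comm]
      refine Finset.sum_congr rfl fun j _ => ?_
      rw [Finset.mul_sum]
    rw [h9]
    simp only [mul_add, Finset.sum_add_distrib] at h5
    rw [h0, zero_add] at h5
    exact h5
  rw [Finset.sum_eq_single q] at hsum
  · refine Eq.trans (Finset.sum_congr rfl fun i _ => Finset.sum_congr rfl fun j _ => ?_) hsum
    unfold tm
    rw [← hu, take_eq, take_eq, drop_eq, drop_eq]
  · intro m hm hmq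
    rw [Finset.mem_Icc] at hm
    rcases Nat.lt_or_ge m q with h | h
    · have hmu : m ≤ u.length := by omega
      have h10 := h3 n g Ω r hg p hp C hC (u.drop m) l (by rw [List.length_drop]; omega) (by omega)
      have h11 : ∑ i, ∑ j, C i j * (tm g τ p m (u ++ bv i :: bv j :: l) -
          tm g τ p m (u ++ bv j :: bv i :: l)) = el (τ m) p (u.take m) *
          ∑ i, ∑ j, C i j * (S g p (u.drop m ++ bv i :: bv j :: l) -
            S g p (u.drop m ++ bv j :: bv i :: l)) := by
        rw [Finset.mul_sum]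
        refine Finset.sum_congr rfl fun i _ => ?_
        rw [Finset.mul_sum]
        refine Finset.sum_congr rfl fun j _ => ?_
        unfold tm
        rw [take_lt u l _ _ hmu, take_lt u l _ _ hmu, drop_lt u l _ _ hmu, drop_lt u l _ _ hmu]
        ring
      rw [h11, h10, mul_zero]
    · have hqm : q < m := lt_of_le_of_ne h (Ne.symm hmq)
      refine Finset.sum_eq_zero fun i _ => Finset.sum_eq_zero fun j _ => ?_
      unfold tm
      rw [htop m hqm hm.2 _ (by rw [List.length_take, hlen]; omega),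
        htop m hqm hm.2 _ (by rw [List.length_take, hlen]; omega)]
      ring
  · intro h
    exact absurd (Finset.mem_Icc.2 ⟨by omega, by omega⟩) h

end KqAux

open KqAux in
/-- **Kq** -/
theorem tKq (h1 : KO.S_Onb) (h2 : I_Sb) (h3 : S_Nl) : S_Kq := by
  intro n g Ω r τ hg p hp hE hNd q hq1 hqr htop hex
  obtain ⟨l0, hl0, hne⟩ := hex
  have hnil : l0 ≠ [] := by
    intro h
    rw [h] at hl0
    simp at hl0
    omega
  have hdec := List.dropLast_append_getLast hnil
  obtain ⟨u, x0, hux⟩ : ∃ (u : List (Pt n)) (x0 : Pt n), u ++ [x0] = l0 := ⟨_, _, hdec⟩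
  have hu : u.length + 1 = q := by
    rw [← hl0, ← hux, List.length_append, List.length_singleton]
  obtain ⟨-, hIP, -⟩ := h1 n g p (hg.pos p hp)
  obtain ⟨hel, hS, -, -⟩ := h2 n g p
  have hτ : Lin1 fun x => el (τ q) p (u ++ [x]) := hel q (τ q) u [] (by simpa using hu)
  have hτ0 : el (τ q) p (u ++ [x0]) ≠ 0 := by
    rw [hux]
    exact hne
  obtain ⟨T, hT⟩ := hIP.riesz _ hτ
  have hT0 : T ≠ 0 := by
    intro h
    apply hτ0
    have h4 := hT x0
    have h5 := (hIP.lin x0).smul 0 T
    rw [zero_smul, zero_mul] at h5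
    have h6 : ip g p 0 x0 = 0 := h5
    rw [h, h6] at h4
    exact h4.symm
  have hpos := hIP.pos T hT0
  have hsq : √(ip g p T T) ≠ 0 := (Real.sqrt_pos.2 hpos).ne'
  have hlin : ∀ (c : ℝ) (z : Pt n), ip g p (c • T) z = c * ip g p T z := fun c z =>
    (hIP.lin z).smul c T
  refine ⟨(1 / √(ip g p T T)) • T, ?_, ?_⟩
  · rw [hlin, hIP.symm T ((1 / √(ip g p T T)) • T), hlin]
    have h7 := Real.mul_self_sqrt hpos.le
    field_simp
    rw [sq, h7]
  · intro z hz l hl
    rw [hlin] at hz
    have hz' : ip g p T z = 0 := by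
      rcases mul_eq_zero.1 hz with h | h
      · exact absurd h (one_div_ne_zero hsq)
      · exact h
    have hτz : el (τ q) p (u ++ [z]) = 0 := (hT z).symm.trans hz'
    have hσ : Lin1 fun y => S g p (y :: l) :=
      hS (r - q + 4) (by omega) [] l (by rw [List.length_nil, hl]; omega)
    have h8 := hNd (fun x => el (τ q) p (u ++ [x])) (fun y => S g p (y :: l)) hτ hσ
      (fun C hC => key h3 hg hp hE hqr htop u l hu hl C hC) x0 z
    have h9 : el (τ q) p (u ++ [x0]) * S g p (z :: l) =
      el (τ q) p (u ++ [z]) * S g p (x0 :: l) := h8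
    rw [hτz, zero_mul] at h9
    exact (mul_eq_zero.1 h9).resolve_left hτ0

end

end Pool.Agent.Lib.MP_9d59e9_gt.ND
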