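import Pool.Agent.Lib.MP_9d59e9_gt.ND.Spec

/-!
# MP_9d59e9_gt, project ND: all curvature endomorphisms annihilate everything
-/

set_option autoImplicit false
set_option linter.unusedVariables false

namespace Pool.Agent.Lib.MP_9d59e9_gt.ND

open scoped BigOperators ContDiff
open Set KO

noncomputable section

theorem tKv (h1 : I_La) (h2 : I_Sr) (h3 : I_Ds) (h4 : S_Up) : S_Kv := by
  intro n g U hU s hs hz x hx a b k hk
  have key : ∀ j k : ℕ, 4 ≤ k → s + 2 ≤ k + 2 * j → Kl g x (Rv g x a b) k := by
    intro j
    induction j with
    | zero =>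
      intro k hk hj l hl
      have e := h2 n g U hU x hx a b l (by omega)
      have z : ∀ l' : List (Pt n), l'.length = k + 2 → S g x l' = 0 := fun l' hl' =>
        h4 n g U hU s hz (k - 2) (by omega) x hx l' (by omega)
      rw [z _ (by simp [hl]), z _ (by simp [hl])] at e
      linarith
    | succ j ih =>
      intro k hk hj
      exact h3 n g U hU x hx a b k hk (ih (k + 2) (by omega) (by omega))
  exact key (s + 2) k hk (by omega)

end

end Pool.Agent.Lib.MP_9d59e9_gt.ND
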