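import Pool.Agent.Lib.MP_9d59e9_gt.ND.Spec

/-!
# MP_9d59e9_gt, project ND: the Leibniz formula
-/

set_option autoImplicit false

namespace Pool.Agent.Lib.MP_9d59e9_gt.ND

open scoped BigOperators ContDiff
open Set KO

noncomputable section

namespace LzAux

theorem spl_map {V W : Type} (f : V → W) (u : List V) :
    spl (u.map f) = (spl u).map (fun e => (e.1.map f, e.2.map f)) := by
  induction u with
  | nil => rfl
  | cons a u ih =>
    rw [List.map_cons, spl, spl, ih, List.map_append, List.map_map, List.map_map, List.map_map,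
      List.map_map]
    rfl

theorem sum_spl_cons {V : Type} (F : List V × List V → ℝ) (X : V) (u : List V) :
    ((spl (X :: u)).map F).sum =
      ((spl u).map fun e => F (X :: e.1, e.2) + F (e.1, X :: e.2)).sum := by
  rw [spl, List.map_append, List.sum_append, List.map_map, List.map_map, List.sum_map_add]
  rfl

theorem hasDerivAt_list {β : Type} (F : β → ℝ → ℝ) (F' : β → ℝ) (x : ℝ) (E : List β)
    (h : ∀ e ∈ E, HasDerivAt (F e) (F' e) x) :
    HasDerivAt (fun t => (E.map fun e => F e t).sum) (E.map F').sum x := by
  induction E with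
  | nil =>
    simp only [List.map_nil, List.sum_nil]
    exact hasDerivAt_const x (0 : ℝ)
  | cons e E ih =>
    simp only [List.map_cons, List.sum_cons]
    exact (h e List.mem_cons_self).add (ih fun e' he' => h e' (List.mem_cons_of_mem _ he'))

end LzAux

/-- **Lz** (the Leibniz formula). -/
theorem tLz (h1 : I_Sd) (h2 : I_Sr) (h3 : S_Rp) (h4 : S_Tc) : S_Lz := by
  intro n g Ω hg u
  obtain ⟨k, hk⟩ : ∃ k, u.length = k := ⟨_, rfl⟩
  induction k generalizing u with
  | zero =>
    intro p hp a b l hl
    rw [List.length_eq_zero_iff] at hk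
    subst hk
    have e1 : ((spl ([] : List (Pt n))).map fun e => TT g p e.1 e.2 a b l).sum =
        TT g p [] [] a b l := by
      simp [spl]
    rw [e1, List.nil_append, List.nil_append, h2 n g Ω hg p hp a b l hl]
    unfold TT
    have e2 : (fun a_1 => Rw g p [] a b a_1) = Rv g p a b := by
      funext c
      exact (h3 n g Ω hg p hp).2.2.1 a b c
    rw [e2]
    rfl
  | succ k ih =>
    intro p hp a b l hl
    obtain ⟨X, u, rfl⟩ := List.exists_cons_of_length_eq_add_one hk
    have hk' : u.length = k := by simpa using hk
    have hL := ((h1 n g Ω hg p hp X).2 (u ++ a :: b :: l) (by simp; omega)).sub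
      ((h1 n g Ω hg p hp X).2 (u ++ b :: a :: l) (by simp; omega))
    have hR := (LzAux.hasDerivAt_list
      (fun (e : List (Pt n) × List (Pt n)) (t : ℝ) => TT g (p + t • X) (e.1.map (mv g p X t))
        (e.2.map (mv g p X t)) (mv g p X t a) (mv g p X t b) (l.map (mv g p X t)))
      (fun e => TT g p (X :: e.1) e.2 a b l + TT g p e.1 (X :: e.2) a b l) 0 (spl u)
      (fun e _ => h4 n g Ω hg p hp X e.1 e.2 a b l hl)).neg
    have hc : Continuous fun t : ℝ => p + t • X := by fun_prop
    have hnear : ∀ᶠ t : ℝ in nhds 0, p + t • X ∈ Ω := by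
      refine hc.continuousAt.eventually_mem ?_
      refine hg.isOpen.mem_nhds ?_
      simpa using hp
    have heq : (fun t : ℝ => S g (p + t • X) ((u ++ a :: b :: l).map (mv g p X t)) -
        S g (p + t • X) ((u ++ b :: a :: l).map (mv g p X t))) =ᶠ[nhds 0]
        fun t : ℝ => -((spl u).map fun e : List (Pt n) × List (Pt n) =>
          TT g (p + t • X) (e.1.map (mv g p X t))
        (e.2.map (mv g p X t)) (mv g p X t a) (mv g p X t b) (l.map (mv g p X t))).sum := by
      filter_upwards [hnear] with t ht
      have h5 := ih (u.map (mv g p X t)) (by simpa using hk') (p + t • X) ht (mv g p X t a)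
        (mv g p X t b) (l.map (mv g p X t)) (by simpa using hl)
      rw [LzAux.spl_map, List.map_map] at h5
      simp only [List.map_append, List.map_cons]
      exact h5
    have hu := hL.unique (hR.congr_of_eventuallyEq heq)
    rw [LzAux.sum_spl_cons (fun e => TT g p e.1 e.2 a b l) X u]
    exact hu

end

end Pool.Agent.Lib.MP_9d59e9_gt.ND
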