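import Pool.Agent.Lib.MP_9d59e9_gt.ND.Spec

/-! # MP_9d59e9_gt, project ND, module Mn (helper36) -/

set_option autoImplicit false

namespace Pool.Agent.Lib.MP_9d59e9_gt.ND

open scoped BigOperators ContDiff
open Set KO

noncomputable section

theorem tMn (h1 : I_Sb) (h2 : S_Pw) (h3 : S_R1) (h4 : S_Tp) : S_Mn := by
  intro n g Ω r τ Dn hg hcl hnd heq
  by_contra hcon
  push Not at hcon
  obtain ⟨p, hp, hz⟩ := hcon
  unfold Zr at hz
  push Not at hz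
  obtain ⟨l₀, hl, hl0⟩ := hz
  have hc := ((h1 n g 0).2.2.2 Ω hg).2 l₀ (by rw [hl]; omega)
  have hO := hc.isOpen_inter_preimage hg.isOpen (isOpen_compl_singleton (x := (0 : ℝ)))
  obtain ⟨s, -, U, hUU, hUo, ⟨y, hy⟩, hUz⟩ := h4 n g Ω hg r Dn
    (Ω ∩ (fun x => S g x l₀) ⁻¹' {0}ᶜ) inter_subset_left hO ⟨p, hp, hl0⟩
    (fun x hx => hcl hx.1)
    (fun x hx hxD => h2 n g Ω r τ hg x hx.1 (heq x hx.1) (hnd x hx.1 hxD))
  have hgU : IsMetricOn g U := ⟨hUo,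
    fun i j => (hg.smooth i j).mono fun x hx => (hUU hx).1,
    fun x hx => hg.pos x (hUU hx).1⟩
  exact (hUU hy).2 (h3 n g U hgU s hUz y hy l₀ hl)

end

end Pool.Agent.Lib.MP_9d59e9_gt.ND
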