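import Pool.Agent.Lib.MP_9d59e9_gt.ND.Spec

/-!
# MP_9d59e9_gt, project ND: neighbouring letters commute on the 2-vectors `Nul`
-/

set_option autoImplicit false

namespace Pool.Agent.Lib.MP_9d59e9_gt.ND

open scoped BigOperators ContDiff
open Set KO

noncomputable section

namespace NlAux

theorem sum_list {α ι : Type} (L : List α) (s : Finset ι) (w : ι → ℝ) (f : ι → α → ℝ) :
    ∑ q ∈ s, w q * (L.map (f q)).sum = (L.map fun e => ∑ q ∈ s, w q * f q e).sum := by
  induction L with
  | nil => simp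
  | cons a L ih =>
    simp only [List.map_cons, List.sum_cons, mul_add, Finset.sum_add_distrib, ih]

theorem spl_len {V : Type} (u : List V) : ∀ e ∈ spl u, e.1.length + e.2.length = u.length := by
  induction u with
  | nil =>
    intro e he
    simp only [spl, List.mem_singleton] at he
    simp [he]
  | cons a u ih =>
    intro e he
    simp only [spl, List.mem_append, List.mem_map] at he
    rcases he with ⟨e', he', rfl⟩ | ⟨e', he', rfl⟩
    · have h := ih e' he'
      simp only [List.length_cons]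
      omega
    · have h := ih e' he'
      simp only [List.length_cons]
      omega

theorem inner (h1 : I_La) (h2 : I_Sb) (h3 : S_Rp) {n : ℕ} {g : Pt n → Matrix (Fin n) (Fin n) ℝ}
    {Ω : Set (Pt n)} {r : ℕ} (hg : IsMetricOn g Ω) {p : Pt n} (hp : p ∈ Ω)
    {C : Fin n → Fin n → ℝ} (hC : Nul g r p C) (A B l : List (Pt n)) (hA : A.length < r)
    (hl : 4 ≤ l.length) :
    ∑ q : Fin n × Fin n, C q.1 q.2 * TT g p A B (bv q.1) (bv q.2) l = 0 := by
  obtain ⟨-, -, a3, a4, -⟩ := h1 (Pt n)
  have hM : MlL (fun l' : List (Pt n) => S g p (B ++ l')) l.length := by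
    intro l₁ l₂ h
    have h4 := (h2 n g p).2.1 (B.length + l.length) (by omega) (B ++ l₁) l₂ (by
      rw [List.length_append]
      omega)
    simpa only [List.append_assoc] using h4
  have h5 := a4 (fun l' : List (Pt n) => S g p (B ++ l')) l hM (Fin n × Fin n) Finset.univ
    (fun q => C q.1 q.2) (fun q a => Rw g p A (bv q.1) (bv q.2) a)
  simp only [TT]
  rw [← h5]
  refine a3 _ l _ hM (by simp) ?_
  intro b hb
  rw [List.mem_map] at hb
  obtain ⟨a, -, rfl⟩ := hb
  have h6 := (h3 n g Ω hg p hp).2.2.2.2 r C hC A a hA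
  rw [← h6, Fintype.sum_prod_type]

end NlAux

open NlAux in
theorem tNl (h1 : I_La) (h2 : I_Sb) (h3 : S_Rp) (h4 : S_Lz) : S_Nl := by
  intro n g Ω r hg p hp C hC u l hu hl
  have e1 : ∑ i, ∑ j, C i j * (S g p (u ++ bv i :: bv j :: l) - S g p (u ++ bv j :: bv i :: l)) =
      ∑ q : Fin n × Fin n, C q.1 q.2 *
        (S g p (u ++ bv q.1 :: bv q.2 :: l) - S g p (u ++ bv q.2 :: bv q.1 :: l)) := by
    rw [Fintype.sum_prod_type]
  rw [e1]
  have e2 : ∀ q : Fin n × Fin n, C q.1 q.2 *
      (S g p (u ++ bv q.1 :: bv q.2 :: l) - S g p (u ++ bv q.2 :: bv q.1 :: l)) =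
      -(C q.1 q.2 * ((spl u).map fun e => TT g p e.1 e.2 (bv q.1) (bv q.2) l).sum) := by
    intro q
    rw [h4 n g Ω hg u p hp (bv q.1) (bv q.2) l hl, mul_neg]
  rw [Finset.sum_congr rfl fun q _ => e2 q, Finset.sum_neg_distrib,
    sum_list (spl u) Finset.univ (fun q : Fin n × Fin n => C q.1 q.2)
      (fun q e => TT g p e.1 e.2 (bv q.1) (bv q.2) l), neg_eq_zero]
  refine List.sum_eq_zero fun x hx => ?_
  rw [List.mem_map] at hx
  obtain ⟨e, he, rfl⟩ := hx
  have h5 := spl_len u e he
  exact inner h1 h2 h3 hg hp hC e.1 e.2 l (by omega) hl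

end

end Pool.Agent.Lib.MP_9d59e9_gt.ND
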