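import Pool.Agent.Lib.MP_9d59e9_gt.ND.Spec

/-!
# MP_9d59e9_gt, project ND: polarisation of multilinear functions on lists
-/

set_option autoImplicit false

namespace Pool.Agent.Lib.MP_9d59e9_gt.ND

open scoped BigOperators ContDiff
open Set KO

noncomputable section

namespace PlAux

variable {V : Type} [AddCommGroup V] [Module ℝ V]

lemma MlL.tail {F : List V → ℝ} {k : ℕ} (hF : MlL F (k + 1)) (a : V) :
    MlL (fun l => F (a :: l)) k := by
  intro l₁ l₂ h
  exact hF (a :: l₁) l₂ (by simp only [List.length_cons]; omega)

lemma MlL.head {F : List V → ℝ} {k : ℕ} (hF : MlL F (k + 1)) {l : List V} (hl : l.length = k) :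
    Lin1 fun a => F (a :: l) :=
  hF [] l (by simp only [List.length_nil]; omega)

/-- the derivative of a multilinear function along a line -/
lemma deriv (L : List (V × V)) : ∀ F : List V → ℝ, MlL F L.length →
    HasDerivAt (fun t : ℝ => F (L.map fun e => e.1 + t • e.2))
      (dS F (L.map Prod.fst) (L.map Prod.snd)) 0 := by
  induction L with
  | nil =>
    intro F _
    simp only [List.map_nil]
    have h : dS F ([] : List V) [] = 0 := by simp only [dS]
    rw [h]
    exact hasDerivAt_const _ _
  | cons e L ih =>
    intro F hF
    have hF' : MlL F (L.length + 1) := hF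
    have h1 := ih (fun l => F (e.1 :: l)) (MlL.tail hF' e.1)
    have h2 := ih (fun l => F (e.2 :: l)) (MlL.tail hF' e.2)
    have h3 := (hasDerivAt_id (0 : ℝ)).mul h2
    have h4 := h1.add h3
    have h5 : (fun t : ℝ => F ((e :: L).map fun e => e.1 + t • e.2)) =
        fun t : ℝ => F (e.1 :: L.map fun e => e.1 + t • e.2) +
          id t * F (e.2 :: L.map fun e => e.1 + t • e.2) := by
      funext t
      have hl := MlL.head hF' (l := L.map fun e => e.1 + t • e.2) (by simp)
      have h6 := hl.add e.1 (t • e.2)
      have h7 := hl.smul t e.2
      simp only [List.map_cons, id]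
      rw [h6, h7]
    have h8 : L.map (fun e : V × V => e.1 + (0 : ℝ) • e.2) = L.map Prod.fst := by
      apply List.map_congr_left
      intro a _
      rw [zero_smul, add_zero]
    have h9 : dS F ((e :: L).map Prod.fst) ((e :: L).map Prod.snd) =
        F (e.2 :: L.map Prod.fst) +
          dS (fun l => F (e.1 :: l)) (L.map Prod.fst) (L.map Prod.snd) := by
      simp only [List.map_cons, dS]
    rw [h5, h9]
    refine h4.congr_deriv ?_
    simp only [id, h8]
    ring

/-- moving a letter to the front -/
lemma front {F : List V → ℝ} {k : ℕ} {m : List V}
    (hs : ∀ (u : List V) (a b : V) (l : List V), u.length + 2 + l.length = k + 1 →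
        F (u ++ a :: b :: (l ++ m)) = F (u ++ b :: a :: (l ++ m))) (z w : V) :
    ∀ i j : ℕ, i + j = k → F (List.replicate i z ++ w :: (List.replicate j z ++ m)) =
      F (w :: (List.replicate k z ++ m)) := by
  intro i
  induction i with
  | zero =>
    intro j hj
    have : j = k := by omega
    subst this
    rfl
  | succ i ih =>
    intro j hj
    have h1 := hs (List.replicate i z) z w (List.replicate j z) (by
      simp only [List.length_replicate]; omega)
    have h2 := ih (j + 1) (by omega)
    rw [List.replicate_succ] at h2
    rw [List.replicate_succ', List.append_assoc, List.cons_append, List.nil_append, h1]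
    rw [List.cons_append] at h2
    exact h2

/-- polarisation -/
lemma pol (h1 : I_La) (m : List V) : ∀ (k : ℕ) (F : List V → ℝ), MlL F (k + m.length) →
      (∀ (u : List V) (a b : V) (l : List V), u.length + 2 + l.length = k →
        F (u ++ a :: b :: (l ++ m)) = F (u ++ b :: a :: (l ++ m))) →
      (∀ z, F (List.replicate k z ++ m) = 0) →
      ∀ Z : List V, Z.length = k → F (Z ++ m) = 0 := by
  intro k
  induction k with
  | zero =>
    intro F _ _ h0 Z hZ
    have hZ' : Z = [] := List.length_eq_zero_iff.1 hZ
    subst hZ'
    exact h0 0
  | succ k ih =>
    intro F hF hs h0 Z hZ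
    cases Z with
    | nil => simp at hZ
    | cons w Z =>
      have hZ' : Z.length = k := by simpa using hZ
      have hF' : MlL F (k + m.length + 1) := by
        have : k + m.length + 1 = k + 1 + m.length := by omega
        rw [this]
        exact hF
      refine ih (fun l => F (w :: l)) (MlL.tail hF' w) ?_ ?_ Z hZ'
      · intro u a b l hl
        exact hs (w :: u) a b l (by simp only [List.length_cons]; omega)
      · intro z
        have hG : MlL (fun l => F (l ++ m)) (k + 1) := by
          intro l₁ l₂ hl
          have h2 := hF l₁ (l₂ ++ m) (by rw [List.length_append]; omega)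
          have h3 : (fun a => F (l₁ ++ a :: (l₂ ++ m))) =
              fun a => (fun l => F (l ++ m)) (l₁ ++ a :: l₂) := by
            funext a
            simp only [List.append_assoc, List.cons_append]
          rw [h3] at h2
          exact h2
        have hd := deriv (List.replicate (k + 1) (z, w)) (fun l => F (l ++ m)) (by
          rw [List.length_replicate]; exact hG)
        have h4 : (fun t : ℝ => (fun l => F (l ++ m))
            ((List.replicate (k + 1) (z, w)).map fun e => e.1 + t • e.2)) = fun _ => (0 : ℝ) := by
          funext t
          simp only [List.map_replicate]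
          exact h0 _
        rw [h4] at hd
        have h5 := hd.unique (hasDerivAt_const (0 : ℝ) (0 : ℝ))
        rw [List.map_replicate, List.map_replicate,
          (h1 V).2.2.2.2.2.2 (fun l => F (l ++ m)) (List.replicate (k + 1) z)
            (List.replicate (k + 1) w) (by rw [List.length_replicate, List.length_replicate]),
          List.length_replicate] at h5
        have h6 : ∀ i ∈ Finset.range (k + 1), F ((List.replicate (k + 1) z).set i
            ((List.replicate (k + 1) w).getD i 0) ++ m) =
            F (w :: (List.replicate k z ++ m)) := by
          intro i hi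
          have hi' : i < k + 1 := Finset.mem_range.1 hi
          have h7 : (List.replicate (k + 1) w).getD i 0 = w := by
            rw [List.getD_eq_getElem _ _ (by rw [List.length_replicate]; exact hi')]
            exact List.getElem_replicate _
          have h8 : (List.replicate (k + 1) z).set i w =
              List.replicate i z ++ w :: List.replicate (k - i) z := by
            rw [List.set_eq_take_append_cons_drop, if_pos (by rw [List.length_replicate]; exact hi'),
              List.take_replicate, List.drop_replicate, min_eq_left hi'.le]
            have : k + 1 - (i + 1) = k - i := by omega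
            rw [this]
          rw [h7, h8, List.append_assoc, List.cons_append]
          exact front hs z w i (k - i) (by omega)
        rw [Finset.sum_congr rfl h6, Finset.sum_const, Finset.card_range, nsmul_eq_mul] at h5
        rcases mul_eq_zero.1 h5 with h9 | h9
        · exact absurd h9 (Nat.cast_ne_zero.2 (Nat.succ_ne_zero k))
        · exact h9

end PlAux

theorem tPl (h1 : I_La) : S_Pl := by
  intro V _ _
  exact ⟨fun L F hF => PlAux.deriv L F hF,
    fun k F m hF hs h0 Z hZ => PlAux.pol h1 m k F hF hs h0 Z hZ⟩

end

end Pool.Agent.Lib.MP_9d59e9_gt.ND
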