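import Pool.Agent.Lib.MP_9d59e9_gt.ND.Spec

/-!
# MP_9d59e9_gt, project ND, module Pw: some `∇^s R` vanishes at the point
-/

set_option autoImplicit false

namespace Pool.Agent.Lib.MP_9d59e9_gt.ND

open scoped BigOperators ContDiff
open Set KO

noncomputable section

/-- **Pw**: some `∇^s R` vanishes at the point. -/
theorem tPw (h1 : S_Kq) (h2 : S_Zs) (h3 : S_Z0) : S_Pw := by
  intro n g Ω r τ hg p hp hE hN
  classical
  by_cases hex : ∃ m, m ≤ r ∧ 1 ≤ m ∧ ∃ l : List (Pt n), l.length = m ∧ el (τ m) p l ≠ 0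
  · obtain ⟨m, hmr, hm⟩ := hex
    let P : ℕ → Prop := fun m => 1 ≤ m ∧ ∃ l : List (Pt n), l.length = m ∧ el (τ m) p l ≠ 0
    have hq : P (Nat.findGreatest P r) := Nat.findGreatest_spec hmr hm
    have hqr : Nat.findGreatest P r ≤ r := Nat.findGreatest_le r
    have hmax : ∀ k, Nat.findGreatest P r < k → k ≤ r → ¬ P k := fun k h h' =>
      Nat.findGreatest_is_greatest h h'
    generalize Nat.findGreatest P r = q at hq hqr hmax
    obtain ⟨hq1, hq2⟩ := hq
    rcases eq_or_lt_of_le hqr with h | h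
    · subst h
      exact ⟨0, Nat.zero_le _, h3 n g Ω q τ hg p hp hE hN hq1 hq2⟩
    · obtain ⟨e, he, hz⟩ := h1 n g Ω r τ hg p hp hE hN q hq1 h
        (fun m hm hmr l hl => by
          by_contra hne
          exact hmax m hm hmr ⟨by omega, l, hl, hne⟩) hq2
      exact ⟨r - q, by omega, h2 n g Ω r hg p hp hN (r - q) (by omega) (by omega) e he hz⟩
  · refine ⟨r, le_rfl, fun l hl => ?_⟩
    have hE1 := hE l (by omega)
    have h0 : ∑ m ∈ Finset.Icc 1 r, el (τ m) p (l.take m) * S g p (l.drop m) = 0 := by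
      refine Finset.sum_eq_zero fun m hm => ?_
      rw [Finset.mem_Icc] at hm
      have h4 : el (τ m) p (l.take m) = 0 := by
        by_contra hne
        exact hex ⟨m, hm.2, hm.1, l.take m, by rw [List.length_take]; omega, hne⟩
      rw [h4, zero_mul]
    rw [h0, add_zero] at hE1
    exact hE1

end

end Pool.Agent.Lib.MP_9d59e9_gt.ND
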