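import Pool.Agent.Lib.MP_9d59e9_gt.ND.Spec

/-!
# MP_9d59e9_gt, project ND, module R1: `∇^s R = 0` implies `∇R = 0`
-/

set_option autoImplicit false

namespace Pool.Agent.Lib.MP_9d59e9_gt.ND

open scoped BigOperators ContDiff
open Set KO

noncomputable section

theorem tR1 (h1 : S_Up) (h2 : S_Rs) : S_R1 := by
  intro n g U hg s
  induction s with
  | zero => exact fun h => h1 n g U hg 0 h 1 (Nat.zero_le 1)
  | succ s ih =>
    intro h
    rcases Nat.eq_zero_or_pos s with rfl | hs
    · exact h
    · refine ih fun x hx => ?_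
      have h3 := h2 n g U hg (s + 1) (by omega) h x hx
      rwa [Nat.add_sub_cancel] at h3

end

end Pool.Agent.Lib.MP_9d59e9_gt.ND
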