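import Pool.Agent.Lib.MP_9d59e9_gt.ND.Spec

/-!
# MP_9d59e9_gt, project ND: curve lemma for `Rw`
-/

set_option autoImplicit false

namespace Pool.Agent.Lib.MP_9d59e9_gt.ND

open scoped BigOperators ContDiff Topology
open Set KO

noncomputable section

private theorem ip_zero_right {n : ℕ} (g : Pt n → Matrix (Fin n) (Fin n) ℝ) (x z : Pt n) :
    ip g x z 0 = 0 := by
  simp [ip]

private theorem mv_zero {n : ℕ} (g : Pt n → Matrix (Fin n) (Fin n) ℝ) (p X v : Pt n) :
    mv g p X 0 v = v := by
  simp [mv]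

private theorem map_mv_zero {n : ℕ} (g : Pt n → Matrix (Fin n) (Fin n) ℝ) (p X : Pt n)
    (w : List (Pt n)) : w.map (mv g p X 0) = w := by
  rw [List.map_congr_left (g := id) fun v _ => mv_zero g p X v, List.map_id]

theorem tRc (hSmo : KO.S_Smo) (hCvb : KO.S_Cvb) (hCvI : KO.S_CvI) (h4 : I_Sb) (hSd : I_Sd)
    (hRp : S_Rp) : S_Rc := by
  intro n g Ω hg p hp X w u v a
  have hΩ := hg.isOpen
  obtain ⟨smI, -⟩ := hSmo n g Ω hg
  obtain ⟨cb1, cb2, -, -⟩ := hCvb n g p X
  obtain ⟨sd1, sd2⟩ := hSd n g Ω hg p hp X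
  have hp0 : p + (0 : ℝ) • X = p := by rw [zero_smul, add_zero]
  set W : ℝ → Pt n := fun t => Rw g (p + t • X) (w.map (mv g p X t)) (mv g p X t u)
    (mv g p X t v) (mv g p X t a) with hW
  have hW0 : W 0 = Rw g p w u v a := by
    rw [hW]
    simp only [hp0, mv_zero, map_mv_zero]
  -- differentiability
  obtain ⟨W', hW'⟩ : ∃ W' : Pt n, HasDerivAt W W' 0 := by
    have h1 : ∀ i b, ∃ d : ℝ, HasDerivAt (fun t : ℝ => (g (p + t • X))⁻¹ i b) d 0 := by
      intro i b
      have h2 : DifferentiableAt ℝ (fun x => (g x)⁻¹ i b) p :=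
        ((smI i b).contDiffAt (hΩ.mem_nhds hp)).differentiableAt (by simp)
      exact ⟨_, h2.hasFDerivAt.hasLineDerivAt X⟩
    choose dg hdg using h1
    have h3 : ∀ b : Fin n, ∃ d : ℝ, HasDerivAt (fun t : ℝ => S g (p + t • X)
        (w.map (mv g p X t) ++ [mv g p X t u, mv g p X t v, mv g p X t a, bv b])) d 0 := by
      intro b
      have h5 := sd1 ((w.map fun c => ((fun t : ℝ => mv g p X t c), c, (0 : Pt n))) ++
        [((fun t : ℝ => mv g p X t u), u, 0), ((fun t : ℝ => mv g p X t v), v, 0),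
          ((fun t : ℝ => mv g p X t a), a, 0),
          ((fun _ : ℝ => (bv b : Pt n)), bv b, Chr g p X (bv b))]) (by simp) (by
          intro e he
          rw [List.mem_append] at he
          rcases he with he | he
          · rw [List.mem_map] at he
            obtain ⟨c, -, rfl⟩ := he
            exact cb1 c
          · simp only [List.mem_cons, List.not_mem_nil, or_false] at he
            rcases he with rfl | rfl | rfl | rfl
            · exact cb1 u
            · exact cb1 v
            · exact cb1 a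
            · exact cb2 (bv b))
      simp only [List.map_append, List.map_map, List.map_cons, List.map_nil] at h5
      exact ⟨_, h5⟩
    choose de hde using h3
    refine ⟨fun i => ∑ b, (dg i b * S g (p + (0 : ℝ) • X)
        (w.map (mv g p X 0) ++ [mv g p X 0 u, mv g p X 0 v, mv g p X 0 a, bv b]) +
        (g (p + (0 : ℝ) • X))⁻¹ i b * de b), hasDerivAt_pi.2 fun i => ?_⟩
    exact HasDerivAt.fun_sum fun b _ => (hdg i b).mul (hde b)
  have hcvW : Cv g p X W (Rw g p w u v a) (W' + Chr g p X (Rw g p w u v a)) := by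
    refine ⟨hW0, ?_⟩
    have : -(Chr g p X (Rw g p w u v a)) + (W' + Chr g p X (Rw g p w u v a)) = W' := by
      rw [add_comm W', neg_add_cancel_left]
    rw [this]
    exact hW'
  obtain ⟨rp1, nondeg, -⟩ := hRp n g Ω hg p hp
  have key : W' + Chr g p X (Rw g p w u v a) = Rw g p (X :: w) u v a := by
    refine nondeg _ _ fun z => ?_
    have h1 := hCvI n g Ω hg p hp X W _ _ _ z 0 hcvW (cb1 z)
    have h2 := sd2 (w ++ [u, v, a, z]) (by simp)
    have hev : (fun t : ℝ => ip g (p + t • X) (W t) (z - t • Chr g p X z)) =ᶠ[𝓝 0]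
        fun t : ℝ => S g (p + t • X) ((w ++ [u, v, a, z]).map (mv g p X t)) := by
      have hc : ContinuousAt (fun t : ℝ => p + t • X) 0 := by fun_prop
      have hmem : Ω ∈ 𝓝 (p + (0 : ℝ) • X) := by
        rw [hp0]
        exact hΩ.mem_nhds hp
      filter_upwards [hc.preimage_mem_nhds hmem] with t ht
      have h6 := (hRp n g Ω hg (p + t • X) ht).1 (w.map (mv g p X t)) (mv g p X t u)
        (mv g p X t v) (mv g p X t a) (mv g p X t z)
      simp only [List.map_append, List.map_cons, List.map_nil]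
      exact h6
    have h3 := (h1.congr_of_eventuallyEq hev.symm).unique h2
    rw [ip_zero_right, add_zero] at h3
    rw [h3, rp1]
    rfl
  rw [← key]
  exact hcvW

end

end Pool.Agent.Lib.MP_9d59e9_gt.ND
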