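import Pool.Agent.Lib.MP_9d59e9_gt.ND.Spec

/-!
# Project ND, module Rk: the rank of a decomposable 2-form
-/

set_option autoImplicit false

namespace Pool.Agent.Lib.MP_9d59e9_gt.ND

open scoped BigOperators ContDiff
open Set KO

noncomputable section

namespace RkAux

/-- the matrix of the 2-form -/
def M {n : ℕ} (τ σ : Fin n → ℝ) : Matrix (Fin n) (Fin n) ℝ :=
  Matrix.of fun i j => τ i * σ j - τ j * σ i

theorem rank_le {n : ℕ} (τ σ : Fin n → ℝ) : (M τ σ).rank ≤ 2 := by
  have h : M τ σ = (Matrix.of fun (i : Fin n) (k : Fin 2) => if k = 0 then τ i else -σ i) *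
      (Matrix.of fun (k : Fin 2) (j : Fin n) => if k = 0 then σ j else τ j) := by
    ext i j
    rw [Matrix.mul_apply, Fin.sum_univ_two]
    simp only [M, Matrix.of_apply, if_true, Fin.isValue, one_ne_zero, if_false]
    ring
  rw [h]
  refine le_trans (Matrix.rank_mul_le_left _ _) ?_
  have h2 := Matrix.rank_le_card_width
    (Matrix.of fun (i : Fin n) (k : Fin 2) => if k = 0 then τ i else -σ i)
  rwa [Fintype.card_fin] at h2

theorem le_rank {n : ℕ} (τ σ : Fin n → ℝ) (i j : Fin n) (h : τ i * σ j - τ j * σ i ≠ 0) :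
    2 ≤ (M τ σ).rank := by
  have h1 := Matrix.rank_submatrix_le (M τ σ) ![i, j] ![i, j]
  have h2 : ((M τ σ).submatrix ![i, j] ![i, j]).det ≠ 0 := by
    rw [Matrix.det_fin_two]
    simp only [Matrix.submatrix_apply, M, Matrix.of_apply, Matrix.cons_val_zero,
      Matrix.cons_val_one]
    have h3 : (τ i * σ i - τ i * σ i) * (τ j * σ j - τ j * σ j) -
        (τ i * σ j - τ j * σ i) * (τ j * σ i - τ i * σ j) =
        (τ i * σ j - τ j * σ i) * (τ i * σ j - τ j * σ i) := by ring
    rw [h3]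
    exact mul_ne_zero h h
  have h4 := Matrix.rank_of_det_ne_zero h2
  rw [Fintype.card_fin] at h4
  exact h4.symm.le.trans h1

end RkAux

open RkAux in
theorem tRk : S_Rk := by
  intro n τ σ hr i j
  by_contra hne
  have h1 : τ i * σ j - τ j * σ i ≠ 0 := fun h => hne (sub_eq_zero.mp h)
  exact hr (le_antisymm (rank_le τ σ) (le_rank τ σ i j h1))

end

end Pool.Agent.Lib.MP_9d59e9_gt.ND
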