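import Pool.Agent.Lib.MP_9d59e9_gt.ND.Spec

/-!
# MP_9d59e9_gt, project ND, module Rp: the vector `(∇_w R)(u, v) a`
-/

set_option autoImplicit false

namespace Pool.Agent.Lib.MP_9d59e9_gt.ND

open scoped BigOperators ContDiff
open Set KO

noncomputable section

namespace RpAux

lemma lin_sum {V : Type} [AddCommGroup V] [Module ℝ V] {f : V → ℝ} (hf : Lin1 f) {ι : Type}
    (s : Finset ι) (c : ι → ℝ) (v : ι → V) : f (∑ i ∈ s, c i • v i) = ∑ i ∈ s, c i * f (v i) := by
  classical
  induction s using Finset.induction_on with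
  | empty =>
    have h := hf.smul 0 0
    simpa using h
  | insert a s ha ih => rw [Finset.sum_insert ha, Finset.sum_insert ha, hf.add, hf.smul, ih]

lemma eq_sum {n : ℕ} (z : Pt n) : z = ∑ k, z k • (bv k : Pt n) := by
  funext j
  rw [Finset.sum_apply, Finset.sum_eq_single j]
  · unfold bv
    rw [Pi.smul_apply, Pi.single_eq_same, smul_eq_mul, mul_one]
  · intro k _ hk
    unfold bv
    rw [Pi.smul_apply, Pi.single_eq_of_ne hk.symm, smul_zero]
  · intro h
    exact absurd (Finset.mem_univ _) h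

lemma inv_mul {n : ℕ} {A : Matrix (Fin n) (Fin n) ℝ} (hA : A.PosDef) (k b : Fin n) :
    ∑ i, A i k * A⁻¹ i b = if k = b then 1 else 0 := by
  have hd : IsUnit A.det := (hA.det_pos).ne'.isUnit
  have h1 := congrFun (congrFun (Matrix.mul_nonsing_inv A hd) k) b
  rw [Matrix.mul_apply, Matrix.one_apply] at h1
  rw [← h1]
  refine Finset.sum_congr rfl fun i _ => ?_
  have h2 := hA.1.apply k i
  rw [star_trivial] at h2
  rw [h2]

end RpAux

theorem tRp (h1 : KO.S_Up) (h2 : KO.S_Sym) (h3 : I_Sb) : S_Rp := by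
  intro n g Ω hg x hx
  have hpos := hg.pos x hx
  obtain ⟨-, hM, h4, -⟩ := h3 n g x
  have l4 : ∀ (w : List (Pt n)) (u v a : Pt n), Lin1 fun z => S g x (w ++ [u, v, a, z]) := by
    intro w u v a
    have h := hM (w.length + 4) (by omega) (w ++ [u, v, a]) [] (by simp)
    have e : (fun z => S g x (w ++ [u, v, a] ++ z :: [])) = fun z => S g x (w ++ [u, v, a, z]) := by
      funext z
      simp
    rw [e] at h
    exact h
  have l3 : ∀ (w : List (Pt n)) (u v z : Pt n), Lin1 fun a => S g x (w ++ [u, v, a, z]) := by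
    intro w u v z
    have h := hM (w.length + 4) (by omega) (w ++ [u, v]) [z] (by simp)
    have e : (fun a => S g x (w ++ [u, v] ++ a :: [z])) = fun a => S g x (w ++ [u, v, a, z]) := by
      funext z
      simp
    rw [e] at h
    exact h
  have p1 : ∀ (w : List (Pt n)) (u v a z : Pt n),
      ip g x (Rw g x w u v a) z = S g x (w ++ [u, v, a, z]) := by
    intro w u v a z
    have e1 : S g x (w ++ [u, v, a, z]) = ∑ k, z k * S g x (w ++ [u, v, a, bv k]) := by
      conv_lhs => rw [RpAux.eq_sum z]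
      exact RpAux.lin_sum (l4 w u v a) Finset.univ z fun k => bv k
    rw [e1]
    unfold ip Rw
    rw [Finset.sum_comm]
    refine Finset.sum_congr rfl fun k _ => ?_
    have e2 : ∀ i, g x i k * ((∑ b, (g x)⁻¹ i b * S g x (w ++ [u, v, a, bv b])) * z k) =
        ∑ b, (g x i k * (g x)⁻¹ i b) * (S g x (w ++ [u, v, a, bv b]) * z k) := by
      intro i
      rw [Finset.sum_mul, Finset.mul_sum]
      exact Finset.sum_congr rfl fun b _ => by ring
    rw [Finset.sum_congr rfl fun i _ => e2 i, Finset.sum_comm]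
    have e3 : ∀ b, ∑ i, (g x i k * (g x)⁻¹ i b) * (S g x (w ++ [u, v, a, bv b]) * z k) =
        (if k = b then 1 else 0) * (S g x (w ++ [u, v, a, bv b]) * z k) := by
      intro b
      rw [← Finset.sum_mul, RpAux.inv_mul hpos]
    rw [Finset.sum_congr rfl fun b _ => e3 b, Finset.sum_eq_single k]
    · rw [if_pos rfl]
      ring
    · intro b _ hb
      rw [if_neg (Ne.symm hb), zero_mul]
    · intro h
      exact absurd (Finset.mem_univ _) h
  have p2 := (h1 n g x hpos).2
  refine ⟨p1, p2, ?_, ?_, ?_⟩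
  · intro u v a
    refine p2 _ _ fun z => ?_
    rw [p1, (h2 n g Ω hg x hx).2.1, ← h4]
    rfl
  · intro w u v
    refine ⟨fun a b => ?_, fun r a => ?_⟩
    · funext i
      unfold Rw
      rw [Pi.add_apply, ← Finset.sum_add_distrib]
      refine Finset.sum_congr rfl fun c _ => ?_
      rw [(l3 w u v (bv c)).add a b, mul_add]
    · funext i
      unfold Rw
      rw [Pi.smul_apply, smul_eq_mul, Finset.mul_sum]
      refine Finset.sum_congr rfl fun c _ => ?_
      rw [(l3 w u v (bv c)).smul r a]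
      ring
  · intro r C hC w a hw
    funext k
    rw [Finset.sum_apply]
    simp only [Finset.sum_apply, Pi.smul_apply, Pi.zero_apply, smul_eq_mul, Rw, Finset.mul_sum]
    have e1 : ∀ i : Fin n, ∑ j, ∑ b, C i j * ((g x)⁻¹ k b * S g x (w ++ [bv i, bv j, a, bv b])) =
        ∑ b, ∑ j, C i j * ((g x)⁻¹ k b * S g x (w ++ [bv i, bv j, a, bv b])) :=
      fun i => Finset.sum_comm
    rw [Finset.sum_congr rfl fun i _ => e1 i, Finset.sum_comm]
    refine Finset.sum_eq_zero fun b _ => ?_
    have h := hC w a (bv b) hw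
    calc ∑ i, ∑ j, C i j * ((g x)⁻¹ k b * S g x (w ++ [bv i, bv j, a, bv b])) =
          (g x)⁻¹ k b * ∑ i, ∑ j, C i j * S g x (w ++ [bv i, bv j, a, bv b]) := by
          rw [Finset.mul_sum]
          refine Finset.sum_congr rfl fun i _ => ?_
          rw [Finset.mul_sum]
          exact Finset.sum_congr rfl fun j _ => by ring
      _ = 0 := by rw [h, mul_zero]

end

end Pool.Agent.Lib.MP_9d59e9_gt.ND
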