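import Pool.Agent.Lib.MP_9d59e9_gt.ND.Spec

/-!
# MP_9d59e9_gt, project ND: `∇^s R = 0` implies `∇^(s-1) R = 0` (`S_Rs`)
-/

set_option autoImplicit false

namespace Pool.Agent.Lib.MP_9d59e9_gt.ND

open scoped BigOperators ContDiff
open Set KO

noncomputable section

/-- **Rs**. -/
theorem tRs (h1 : KO.S_Onb) (h2 : I_Sb) (h3 : I_Sc) (h4 : S_Rp) (h5 : S_Cm) (h6 : S_F2)
    (h7 : S_Al) : S_Rs := by
  intro n g U hg s hs hz x hx
  have hO := h1 n g x (hg.pos x hx)
  refine h7 (Pt n) (ip g x) (s - 1) (S g x) hO.2.1 hO.2.2 (by omega)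
    ((h2 n g x).2.1 (s - 1 + 4) (by omega)) ?_ ?_ ?_ ?_
  · intro u a b l _ hl
    exact h5 n g U hg s (by omega) hz u x hx a b l hl
  · intro w _
    exact (h3 n g U hg x hx w).1
  · intro w z a b c d _
    exact (h3 n g U hg x hx w).2 z a b c d
  · intro z a b
    refine ⟨Rw g x (List.replicate (s - 1) z) a b z, ?_, ?_⟩
    · intro v
      exact (h4 n g U hg x hx).1 (List.replicate (s - 1) z) a b z v
    · intro l hl
      exact h6 n g U hg s hs hz x hx z a b l (by omega)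

end

end Pool.Agent.Lib.MP_9d59e9_gt.ND
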