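import Pool.Agent.Lib.MP_9d59e9_gt.ND.Spec

set_option autoImplicit false

namespace Pool.Agent.Lib.MP_9d59e9_gt.ND

open scoped BigOperators ContDiff
open Set KO

noncomputable section

namespace TcAux

theorem getD_map {V : Type} [Zero V] (Φ : V → V) (l : List V) (i : ℕ) (hi : i < l.length) :
    (l.map Φ).getD i 0 = Φ (l.getD i 0) := by
  rw [List.getD_eq_getElem _ _ (by rw [List.length_map]; exact hi),
    List.getD_eq_getElem _ _ hi, List.getElem_map]

theorem lin_zero {V : Type} [AddCommGroup V] [Module ℝ V] {f : V → ℝ} (h : Lin1 f) : f 0 = 0 := by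
  have := h.smul 0 0
  rwa [zero_smul, zero_mul] at this

theorem set_zero {V : Type} [AddCommGroup V] [Module ℝ V] {F : List V → ℝ} {k : ℕ} (h : MlL F k)
    (l : List V) (hl : l.length = k) (j : ℕ) (hj : j < l.length) : F (l.set j 0) = 0 := by
  rw [List.set_eq_take_append_cons_drop, if_pos hj]
  refine lin_zero (h (l.take j) (l.drop (j + 1)) ?_)
  rw [List.length_take, List.length_drop]
  omega

theorem ml_left {V : Type} [AddCommGroup V] [Module ℝ V] {F : List V → ℝ} {a b : ℕ}
    (h : MlL F (a + b)) (L : List V) (hL : L.length = b) : MlL (fun l => F (l ++ L)) a := by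
  intro l₁ l₂ hl
  have h2 := h l₁ (l₂ ++ L) (by rw [List.length_append]; omega)
  have h3 : (fun x => F (l₁ ++ x :: l₂ ++ L)) = fun x => F (l₁ ++ x :: (l₂ ++ L)) := by
    funext x
    rw [List.append_assoc, List.cons_append]
  rw [h3]
  exact h2

theorem ml_right {V : Type} [AddCommGroup V] [Module ℝ V] {F : List V → ℝ} {a b : ℕ}
    (h : MlL F (a + b)) (L : List V) (hL : L.length = a) : MlL (fun l => F (L ++ l)) b := by
  intro l₁ l₂ hl
  have h2 := h (L ++ l₁) l₂ (by rw [List.length_append]; omega)
  have h3 : (fun x => F (L ++ (l₁ ++ x :: l₂))) = fun x => F (L ++ l₁ ++ x :: l₂) := by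
    funext x
    rw [List.append_assoc]
  rw [h3]
  exact h2

theorem tt_sum {n : ℕ} (h2 : I_La) (g : Pt n → Matrix (Fin n) (Fin n) ℝ) (q : Pt n)
    (A B : List (Pt n)) (u v : Pt n) (l : List (Pt n)) :
    TT g q A B u v l = ∑ i ∈ Finset.range l.length,
      S g q (B ++ l.set i (Rw g q A u v (l.getD i 0))) := by
  unfold TT
  rw [(h2 (Pt n)).2.2.2.2.2.2 _ _ _ (by rw [List.length_map])]
  refine Finset.sum_congr rfl fun i hi => ?_
  rw [getD_map _ _ _ (Finset.mem_range.1 hi)]

theorem ds_one {n : ℕ} (h2 : I_La) (h3 : I_Sb) (g : Pt n → Matrix (Fin n) (Fin n) ℝ) (p : Pt n)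
    (B l : List (Pt n)) (hl : 4 ≤ l.length) (i : ℕ) (hi : i < l.length) (r₀ r₁ : Pt n) :
    dS (S g p) (B ++ l.set i r₀)
      (B.map (fun _ => (0 : Pt n)) ++ (l.map fun _ => (0 : Pt n)).set i r₁) =
      S g p (B ++ l.set i r₁) := by
  have hml : MlL (S g p) (B.length + l.length) := (h3 n g p).2.1 _ (by omega)
  rw [(h2 (Pt n)).1 _ _ _ _ _ (by rw [List.length_map])]
  have e1 : dS (fun l' => S g p (l' ++ l.set i r₀)) B (B.map fun _ => (0 : Pt n)) = 0 := by
    refine (h2 (Pt n)).2.2.1 _ _ _ (ml_left hml _ (by rw [List.length_set]))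
      (by rw [List.length_map]) ?_
    intro b hb
    obtain ⟨_, _, h⟩ := List.mem_map.1 hb
    exact h.symm
  rw [e1, zero_add]
  have hG : MlL (fun l' => S g p (B ++ l')) l.length := ml_right hml _ rfl
  rw [(h2 (Pt n)).2.2.2.2.2.2 _ _ _ (by rw [List.length_set, List.length_set, List.length_map]),
    List.length_set]
  rw [Finset.sum_eq_single i]
  · rw [List.getD_eq_getElem _ _ (by rw [List.length_set, List.length_map]; exact hi),
      List.getElem_set_self, List.set_set]
  · intro j hj hji
    have hj' := Finset.mem_range.1 hj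
    have e2 : ((l.map fun _ => (0 : Pt n)).set i r₁).getD j 0 = 0 := by
      rw [List.getD_eq_getElem _ _ (by rw [List.length_set, List.length_map]; exact hj'),
        List.getElem_set_ne (Ne.symm hji), List.getElem_map]
    rw [e2]
    exact set_zero hG _ (by rw [List.length_set]) j (by rw [List.length_set]; exact hj')
  · intro h
    exact absurd (Finset.mem_range.2 hi) h

end TcAux

open TcAux in
theorem tTc (h1 : KO.S_Cvb) (h2 : I_La) (h3 : I_Sb) (h4 : I_Sd) (h5 : S_Rc) : S_Tc := by
  intro n g Ω hg p hp X A B u v l hl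
  have hcv : ∀ b : Pt n, Cv g p X (fun t => mv g p X t b) b 0 := fun b => (h1 n g p X).1 b
  have key : ∀ i ∈ Finset.range l.length,
      HasDerivAt (fun t : ℝ => S g (p + t • X) (B.map (mv g p X t) ++ (l.map (mv g p X t)).set i
        (Rw g (p + t • X) (A.map (mv g p X t)) (mv g p X t u) (mv g p X t v)
          (mv g p X t (l.getD i 0)))))
        (S g p (X :: B ++ l.set i (Rw g p A u v (l.getD i 0))) +
          S g p (B ++ l.set i (Rw g p (X :: A) u v (l.getD i 0)))) 0 := by
    intro i hi
    have hi' := Finset.mem_range.1 hi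
    have hR := h5 n g Ω hg p hp X A u v (l.getD i 0)
    have hd := (h4 n g Ω hg p hp X).1
      (B.map (fun b => ((fun t => mv g p X t b), b, (0 : Pt n))) ++
        (l.map (fun b => ((fun t => mv g p X t b), b, (0 : Pt n)))).set i
          ((fun t => Rw g (p + t • X) (A.map (mv g p X t)) (mv g p X t u) (mv g p X t v)
            (mv g p X t (l.getD i 0))), Rw g p A u v (l.getD i 0),
            Rw g p (X :: A) u v (l.getD i 0)))
      (by rw [List.length_append, List.length_set, List.length_map, List.length_map]; omega)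
      (by
        intro e he
        rcases List.mem_append.1 he with h | h
        · obtain ⟨b, _, rfl⟩ := List.mem_map.1 h
          exact hcv b
        · rcases List.mem_or_eq_of_mem_set h with h | h
          · obtain ⟨b, _, rfl⟩ := List.mem_map.1 h
            exact hcv b
          · rw [h]
            exact hR)
    have f1 : ∀ t : ℝ, ((B.map (fun b => ((fun t => mv g p X t b), b, (0 : Pt n))) ++
        (l.map (fun b => ((fun t => mv g p X t b), b, (0 : Pt n)))).set i
          ((fun t => Rw g (p + t • X) (A.map (mv g p X t)) (mv g p X t u) (mv g p X t v)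
            (mv g p X t (l.getD i 0))), Rw g p A u v (l.getD i 0),
            Rw g p (X :: A) u v (l.getD i 0))).map fun e => e.1 t) =
        B.map (mv g p X t) ++ (l.map (mv g p X t)).set i
        (Rw g (p + t • X) (A.map (mv g p X t)) (mv g p X t u) (mv g p X t v)
          (mv g p X t (l.getD i 0))) := by
      intro t
      rw [List.map_append, List.map_set, List.map_map, List.map_map]
      rfl
    have f2 : ((B.map (fun b => ((fun t => mv g p X t b), b, (0 : Pt n))) ++
        (l.map (fun b => ((fun t => mv g p X t b), b, (0 : Pt n)))).set i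
          ((fun t => Rw g (p + t • X) (A.map (mv g p X t)) (mv g p X t u) (mv g p X t v)
            (mv g p X t (l.getD i 0))), Rw g p A u v (l.getD i 0),
            Rw g p (X :: A) u v (l.getD i 0))).map fun e => e.2.1) =
        B ++ l.set i (Rw g p A u v (l.getD i 0)) := by
      rw [List.map_append, List.map_set, List.map_map, List.map_map]
      have e : ((fun e : (ℝ → Pt n) × Pt n × Pt n => e.2.1) ∘
          fun b => ((fun t => mv g p X t b), b, (0 : Pt n))) = id := rfl
      rw [e, List.map_id, List.map_id]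
    have f3 : ((B.map (fun b => ((fun t => mv g p X t b), b, (0 : Pt n))) ++
        (l.map (fun b => ((fun t => mv g p X t b), b, (0 : Pt n)))).set i
          ((fun t => Rw g (p + t • X) (A.map (mv g p X t)) (mv g p X t u) (mv g p X t v)
            (mv g p X t (l.getD i 0))), Rw g p A u v (l.getD i 0),
            Rw g p (X :: A) u v (l.getD i 0))).map fun e => e.2.2) =
        B.map (fun _ => (0 : Pt n)) ++ (l.map fun _ => (0 : Pt n)).set i
          (Rw g p (X :: A) u v (l.getD i 0)) := by
      rw [List.map_append, List.map_set, List.map_map, List.map_map]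
      rfl
    simp only [f1] at hd
    rw [f2, f3, ds_one h2 h3 g p B l hl i hi'] at hd
    exact hd
  have hsum := HasDerivAt.fun_sum key
  rw [Finset.sum_add_distrib, add_comm] at hsum
  rw [tt_sum h2 g p (X :: A) B u v l, tt_sum h2 g p A (X :: B) u v l]
  refine hsum.congr_of_eventuallyEq (Filter.Eventually.of_forall fun t => ?_)
  change TT g (p + t • X) (A.map (mv g p X t)) (B.map (mv g p X t))
        (mv g p X t u) (mv g p X t v) (l.map (mv g p X t)) = _
  rw [tt_sum h2, List.length_map]
  refine Finset.sum_congr rfl fun i hi => ?_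
  have e : (l.map (mv g p X t)).getD i 0 = mv g p X t (l.getD i 0) :=
    getD_map _ _ _ (Finset.mem_range.1 hi)
  rw [e]

end

end Pool.Agent.Lib.MP_9d59e9_gt.ND
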