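import Pool.Agent.Lib.MP_9d59e9_gt.ND.Spec

/-! # MP_9d59e9_gt, project ND, module Tp (helper36) -/

set_option autoImplicit false

namespace Pool.Agent.Lib.MP_9d59e9_gt.ND

open scoped BigOperators ContDiff
open Set KO

noncomputable section

private theorem TpAux_open (h1 : I_Sb) {n : ℕ} {g : Pt n → Matrix (Fin n) (Fin n) ℝ}
    {Ω : Set (Pt n)} (hg : IsMetricOn g Ω) (r : ℕ) {U₀ : Set (Pt n)} (hU : U₀ ⊆ Ω)
    (hO : IsOpen U₀) : IsOpen {x | x ∈ U₀ ∧ ¬ Zr g r x} := by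
  have h2 : {x | x ∈ U₀ ∧ ¬ Zr g r x} = ⋃ l : {l : List (Pt n) // l.length = r + 4},
      U₀ ∩ (fun x => S g x l.1) ⁻¹' {0}ᶜ := by
    ext x
    simp only [mem_ofPred_eq, mem_iUnion, mem_inter_iff, mem_preimage, mem_compl_iff,
      mem_singleton_iff]
    constructor
    · rintro ⟨hx, hz⟩
      unfold Zr at hz
      push Not at hz
      obtain ⟨l, hl, hl0⟩ := hz
      exact ⟨⟨l, hl⟩, hx, hl0⟩
    · rintro ⟨⟨l, hl⟩, hx, hl0⟩
      exact ⟨hx, fun hz => hl0 (hz l hl)⟩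
  rw [h2]
  refine isOpen_iUnion fun l => ?_
  have h3 := ((h1 n g 0).2.2.2 Ω hg).2 l.1 (by rw [l.2]; omega)
  exact (h3.mono hU).isOpen_inter_preimage hO isOpen_compl_singleton

theorem tTp (h1 : I_Sb) : S_Tp := by
  intro n g Ω hg r
  induction r with
  | zero =>
    intro Dn U₀ hU hO hne hcl h
    by_cases hV : ∀ x ∈ U₀, Zr g 0 x
    · exact ⟨0, le_rfl, U₀, Subset.rfl, hO, hne, hV⟩
    · push Not at hV
      obtain ⟨x, hx, hz⟩ := hV
      have hVo := TpAux_open h1 hg 0 hU hO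
      obtain ⟨y, hy, hyD⟩ := mem_closure_iff.mp (hcl hx) _ hVo ⟨hx, hz⟩
      obtain ⟨s, hs, hs2⟩ := h y hy.1 hyD
      obtain rfl : s = 0 := by omega
      exact absurd hs2 hy.2
  | succ r ih =>
    intro Dn U₀ hU hO hne hcl h
    by_cases hV : ∀ x ∈ U₀, Zr g (r + 1) x
    · exact ⟨r + 1, le_rfl, U₀, Subset.rfl, hO, hne, hV⟩
    · push Not at hV
      obtain ⟨x, hx, hz⟩ := hV
      have hVo := TpAux_open h1 hg (r + 1) hU hO
      obtain ⟨s, hs, U, hUV, hU1, hU2, hU3⟩ := ih Dn {x | x ∈ U₀ ∧ ¬ Zr g (r + 1) x}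
        (fun y hy => hU hy.1) hVo ⟨x, hx, hz⟩ (fun y hy => hcl hy.1) (by
          rintro y ⟨hy, hyz⟩ hyD
          obtain ⟨s, hs, hs2⟩ := h y hy hyD
          refine ⟨s, ?_, hs2⟩
          rcases Nat.lt_or_ge s (r + 1) with h4 | h4
          · omega
          · obtain rfl : s = r + 1 := by omega
            exact absurd hs2 hyz)
      exact ⟨s, by omega, U, fun y hy => (hUV hy).1, hU1, hU2, hU3⟩

end

end Pool.Agent.Lib.MP_9d59e9_gt.ND
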