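import Pool.Agent.Lib.MP_9d59e9_gt.ND.Spec

/-!
# MP_9d59e9_gt, project ND: higher derivatives vanish
-/

set_option autoImplicit false

namespace Pool.Agent.Lib.MP_9d59e9_gt.ND

open scoped BigOperators ContDiff
open Set KO

noncomputable section

theorem tUp (h1 : I_Sd) : S_Up := by
  intro n g U hU s hs k hk
  induction k, hk using Nat.le_induction with
  | base => exact hs
  | succ k hk ih =>
    intro x hx l hl
    obtain _ | ⟨X, l'⟩ := l
    · simp at hl
    have hl' : l'.length = k + 4 := by
      rw [List.length_cons] at hl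
      omega
    have hder := (h1 n g U hU x hx X).2 l' (by omega)
    have hopen : IsOpen U := hU.isOpen
    have hcont : Continuous fun t : ℝ => x + t • X := by fun_prop
    have hmem : ∀ᶠ t : ℝ in nhds 0, x + t • X ∈ U := by
      refine hcont.continuousAt.eventually_mem (hopen.mem_nhds ?_)
      simpa using hx
    have hev : (fun t : ℝ => S g (x + t • X) (l'.map (mv g x X t))) =ᶠ[nhds 0] fun _ => (0 : ℝ) := by
      filter_upwards [hmem] with t ht
      exact ih (x + t • X) ht _ (by rw [List.length_map, hl'])
    have h0 : HasDerivAt (fun t : ℝ => S g (x + t • X) (l'.map (mv g x X t))) 0 0 :=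
      (hasDerivAt_const (0 : ℝ) (0 : ℝ)).congr_of_eventuallyEq hev
    exact hder.unique h0

end

end Pool.Agent.Lib.MP_9d59e9_gt.ND
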