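import Pool.Agent.Lib.MP_9d59e9_gt.ND.Spec

/-!
# MP_9d59e9_gt, project ND, module Z0: the last coefficient does not vanish
-/

set_option autoImplicit false

namespace Pool.Agent.Lib.MP_9d59e9_gt.ND

open scoped BigOperators ContDiff
open Set KO

noncomputable section

namespace Z0Aux

/-- A unit vector proportional to the dual vector of a nonzero linear form. -/
theorem unit {V : Type} [AddCommGroup V] [Module ℝ V] {B : V → V → ℝ} (hB : IP B) (σ : V → ℝ)
    (hσ : Lin1 σ) (c₀ : V) (hc₀ : σ c₀ ≠ 0) :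
    ∃ (e : V) (s : ℝ), s ≠ 0 ∧ B e e = 1 ∧ ∀ v, σ v = s * B e v := by
  obtain ⟨T, hT⟩ := hB.riesz σ hσ
  have hT0 : T ≠ 0 := by
    rintro rfl
    have h0 : B 0 c₀ = 0 := by
      have := (hB.lin c₀).smul 0 0
      simpa using this
    exact hc₀ ((hT c₀).symm.trans h0)
  have hpos := hB.pos T hT0
  have hsq : Real.sqrt (B T T) * Real.sqrt (B T T) = B T T := Real.mul_self_sqrt hpos.le
  have hs0 : 0 < Real.sqrt (B T T) := Real.sqrt_pos.mpr hpos
  set s := Real.sqrt (B T T) with hs
  refine ⟨s⁻¹ • T, s, hs0.ne', ?_, fun v => ?_⟩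
  · rw [(hB.lin (s⁻¹ • T)).smul, hB.symm, (hB.lin T).smul, ← hsq]
    field_simp
  · rw [(hB.lin v).smul, hT v]
    field_simp

end Z0Aux

theorem tZ0 (h1 : KO.S_Onb) (h2 : I_Sb) (h3 : I_Sc) (h4 : S_Fz) : S_Z0 := by
  intro n g Ω r τ hmet p hp hks hNd hr hl
  obtain ⟨l, hl, hne⟩ := hl
  obtain ⟨hml, -, -, -⟩ := h2 n g p
  have hSc := h3 n g Ω hmet p hp
  rcases List.eq_nil_or_concat' l with rfl | ⟨w, c₀, rfl⟩
  · rw [List.length_nil] at hl
    omega
  rw [List.length_append, List.length_singleton] at hl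
  subst hl
  have heq : ∀ c u v z z' : Pt n, S g p (w ++ [c, u, v, z, z'])
      + ∑ m ∈ Finset.Icc 1 w.length, el (τ m) p (w.take m) * S g p (w.drop m ++ [c, u, v, z, z'])
      + el (τ (w.length + 1)) p (w ++ [c]) * S g p [u, v, z, z'] = 0 := by
    intro c u v z z'
    have h := hks (w ++ [c, u, v, z, z']) (by simp)
    rw [Finset.sum_Icc_succ_top (by omega)] at h
    have e1 : (w ++ [c, u, v, z, z']).take (w.length + 1) = w ++ [c] := by
      rw [List.take_append]
      simp
    have e2 : (w ++ [c, u, v, z, z']).drop (w.length + 1) = [u, v, z, z'] := by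
      rw [List.drop_append]
      simp
    rw [e1, e2] at h
    have e3 : ∑ m ∈ Finset.Icc 1 w.length, el (τ m) p ((w ++ [c, u, v, z, z']).take m)
        * S g p ((w ++ [c, u, v, z, z']).drop m)
        = ∑ m ∈ Finset.Icc 1 w.length, el (τ m) p (w.take m) * S g p (w.drop m ++ [c, u, v, z, z']) := by
      refine Finset.sum_congr rfl fun m hm => ?_
      have hm' := (Finset.mem_Icc.1 hm).2
      rw [List.take_append_of_le_length hm', List.drop_append_of_le_length hm']
    rw [e3] at h
    linarith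
  have hσ : Lin1 fun c => el (τ (w.length + 1)) p (w ++ [c]) :=
    hml (w.length + 1) (τ (w.length + 1)) w [] (by simp)
  have hkey : ∀ c u v z z' : Pt n,
      el (τ (w.length + 1)) p (w ++ [c]) * S g p [u, v, z, z']
      + el (τ (w.length + 1)) p (w ++ [u]) * S g p [v, c, z, z']
      + el (τ (w.length + 1)) p (w ++ [v]) * S g p [c, u, z, z'] = 0 := by
    intro c u v z z'
    have k1 := heq c u v z z'
    have k2 := heq u v c z z'
    have k3 := heq v c u z z'
    have k4 := (hSc w).2 c u v z z'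
    have k5 : ∑ m ∈ Finset.Icc 1 w.length,
          el (τ m) p (w.take m) * S g p (w.drop m ++ [c, u, v, z, z'])
        + ∑ m ∈ Finset.Icc 1 w.length,
          el (τ m) p (w.take m) * S g p (w.drop m ++ [u, v, c, z, z'])
        + ∑ m ∈ Finset.Icc 1 w.length,
          el (τ m) p (w.take m) * S g p (w.drop m ++ [v, c, u, z, z'])
        = 0 := by
      rw [← Finset.sum_add_distrib, ← Finset.sum_add_distrib]
      refine Finset.sum_eq_zero fun m _ => ?_
      have k6 := (hSc (w.drop m)).2 c u v z z'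
      linear_combination (el (τ m) p (w.take m)) * k6
    linear_combination k1 + k2 + k3 - k4 - k5
  obtain ⟨e, s, hs, hee, hse⟩ := Z0Aux.unit (h1 n g p (hmet.pos p hp)).2.1
    (fun c => el (τ (w.length + 1)) p (w ++ [c])) hσ c₀ hne
  have hfin := h4 n g Ω (w.length + 1) hmet p hp hNd [] (by simp) e hee (by
    intro a b ha hb c d
    have h := hkey e a b c d
    have ea := hse a
    have eb := hse b
    have ee := hse e
    rw [ea, eb, ee, ha, hb, hee, mul_zero, zero_mul, zero_mul, add_zero, add_zero, mul_one] at h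
    exact (mul_eq_zero.mp h).resolve_left hs)
  intro l hl4
  match l, hl4 with
  | [a, b, c, d], _ => exact hfin a b c d

end

end Pool.Agent.Lib.MP_9d59e9_gt.ND
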