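import Pool.Agent.Lib.MP_9d59e9_gt.ND.Spec

/-!
# MP_9d59e9_gt, project ND: `∇^s R = 0`, case `s ≥ 1`
-/

set_option autoImplicit false

namespace Pool.Agent.Lib.MP_9d59e9_gt.ND

open scoped BigOperators ContDiff
open Set KO

noncomputable section

/-- **Zs**: `∇^s R = 0`, case `s ≥ 1`. -/
theorem tZs (h1 : KO.S_Onb) (h2 : I_Sb) (h3 : I_Sc) (h4 : S_Lt) (h5 : S_Fz) : S_Zs := by
  intro n g Ω r hM p hp hNd s hs1 hsr e he h0
  have hIP : IP (ip g p) := (h1 n g p (hM.pos p hp)).2.1
  obtain ⟨-, hML, -, -⟩ := h2 n g p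
  have hlin : Lin1 fun x => ip g p e x := by
    have h := hIP.lin e
    refine ⟨fun a b => ?_, fun c a => ?_⟩
    · rw [hIP.symm e (a + b), hIP.symm e a, hIP.symm e b]
      exact h.add a b
    · rw [hIP.symm e (c • a), hIP.symm e a]
      exact h.smul c a
  have hL := h4 n g Ω r hM p hp hNd s hsr e he h0
  intro l hl
  -- the list is `w ++ [a, b, c, d]`
  obtain ⟨w, a, b, c, d, hw, rfl⟩ : ∃ (w : List (Pt n)) (a b c d : Pt n),
      w.length = s ∧ l = w ++ [a, b, c, d] := by
    have h6 : (l.drop s).length = 4 := by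
      rw [List.length_drop]
      omega
    obtain ⟨a, b, c, d, h7⟩ : ∃ a b c d, l.drop s = [a, b, c, d] := by
      match l.drop s, h6 with
      | [a, b, c, d], _ => exact ⟨a, b, c, d, rfl⟩
    refine ⟨l.take s, a, b, c, d, ?_, ?_⟩
    · rw [List.length_take]
      omega
    · rw [← h7, List.take_append_drop]
  refine h5 n g Ω r hM p hp hNd w (by omega) e he ?_ a b c d
  clear hl a b c d
  intro a b ha hb c d
  have hne : w ≠ [] := by
    rintro rfl
    rw [List.length_nil] at hw
    omega
  obtain ⟨u, z, rfl⟩ : ∃ u z, w = u ++ [z] :=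
    ⟨w.dropLast, w.getLast hne, (List.dropLast_append_getLast hne).symm⟩
  rw [List.length_append, List.length_singleton] at hw
  rw [List.append_assoc, List.singleton_append]
  have hlen : ∀ x y m k : Pt n, u.length + 1 + [x, y, m, k].length = s + 4 := by
    intro x y m k
    simp only [List.length_cons, List.length_nil]
    omega
  -- a letter orthogonal to `e`
  have hK : ∀ y, ip g p e y = 0 → ∀ x q m k : Pt n, S g p (u ++ y :: [x, q, m, k]) = 0 :=
    fun y hy x q m k => hL u y [x, q, m, k] (hlen x q m k) (by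
      simp only [List.length_cons, List.length_nil]
      omega) hy
  -- the letter `e`
  have hE : S g p (u ++ e :: [a, b, c, d]) = 0 := by
    have h6 := (h3 n g Ω hM p hp u).2 e a b c d
    have h7 := hK a ha b e c d
    have h8 := hK b hb e a c d
    rw [h7, h8] at h6
    linarith
  -- linearity
  have hLin : Lin1 fun y => S g p (u ++ y :: [a, b, c, d]) := by
    refine hML (s + 4) (by omega) u [a, b, c, d] ?_
    have := hlen a b c d
    omega
  have h9 : ip g p e (z + (-(ip g p e z)) • e) = 0 := by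
    rw [hlin.add, hlin.smul, he]
    ring
  have h10 := hK _ h9 a b c d
  have h11 := hLin.add z ((-(ip g p e z)) • e)
  have h12 := hLin.smul (-(ip g p e z)) e
  rw [h11, h12, hE] at h10
  linarith

end

end Pool.Agent.Lib.MP_9d59e9_gt.ND
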