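import Pool.Agent.Lib.MP_9d59e9_gt.ND.If
import Pool.Agent.Lib.MP_9d59e9_gt.ND.Rp
import Pool.Agent.Lib.MP_9d59e9_gt.ND.Rc
import Pool.Agent.Lib.MP_9d59e9_gt.ND.Tc
import Pool.Agent.Lib.MP_9d59e9_gt.ND.Lz
import Pool.Agent.Lib.MP_9d59e9_gt.ND.Nl
import Pool.Agent.Lib.MP_9d59e9_gt.ND.Rk
import Pool.Agent.Lib.MP_9d59e9_gt.ND.Dm
import Pool.Agent.Lib.MP_9d59e9_gt.ND.Du
import Pool.Agent.Lib.MP_9d59e9_gt.ND.Kq
import Pool.Agent.Lib.MP_9d59e9_gt.ND.Lt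
import Pool.Agent.Lib.MP_9d59e9_gt.ND.Fz
import Pool.Agent.Lib.MP_9d59e9_gt.ND.Zs
import Pool.Agent.Lib.MP_9d59e9_gt.ND.Z0
import Pool.Agent.Lib.MP_9d59e9_gt.ND.Pw
import Pool.Agent.Lib.MP_9d59e9_gt.ND.Up
import Pool.Agent.Lib.MP_9d59e9_gt.ND.Kv
import Pool.Agent.Lib.MP_9d59e9_gt.ND.Cm
import Pool.Agent.Lib.MP_9d59e9_gt.ND.F1
import Pool.Agent.Lib.MP_9d59e9_gt.ND.F2
import Pool.Agent.Lib.MP_9d59e9_gt.ND.Pl
import Pool.Agent.Lib.MP_9d59e9_gt.ND.Al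
import Pool.Agent.Lib.MP_9d59e9_gt.ND.Rs
import Pool.Agent.Lib.MP_9d59e9_gt.ND.R1
import Pool.Agent.Lib.MP_9d59e9_gt.ND.Tp
import Pool.Agent.Lib.MP_9d59e9_gt.ND.Mn
import Pool.Agent.Lib.MP_9d59e9_gt.ND.En
import Pool.Agent.Lib.MP_9d59e9_gt.ND.Fin

/-!
# MP_9d59e9_gt, project ND: assembly
-/

set_option autoImplicit false

namespace Pool.Agent.Lib.MP_9d59e9_gt.ND

open scoped BigOperators ContDiff
open Set KO

theorem sRp : S_Rp := tRp KO.sUp KO.sSym iSb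
theorem sRc : S_Rc := tRc KO.sSmo KO.sCvb KO.sCvI iSb iSd sRp
theorem sTc : S_Tc := tTc KO.sCvb iLa iSb iSd sRc
theorem sLz : S_Lz := tLz iSd iSr sRp sTc
theorem sNl : S_Nl := tNl iLa iSb sRp sLz
theorem sRk : S_Rk := tRk
theorem sDm : S_Dm := tDm iEx iSb iSc iBr1
theorem sDu : S_Du := tDu sRk sDm
theorem sKq : S_Kq := tKq KO.sOnb iSb sNl
theorem sLt : S_Lt := tLt KO.sOnb iSb sNl
theorem sFz : S_Fz := tFz KO.sOnb iSb iSc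
theorem sZs : S_Zs := tZs KO.sOnb iSb iSc sLt sFz
theorem sZ0 : S_Z0 := tZ0 KO.sOnb iSb iSc sFz
theorem sPw : S_Pw := tPw sKq sZs sZ0
theorem sUp : S_Up := tUp iSd
theorem sKv : S_Kv := tKv iLa iSr iDs sUp
theorem sCm : S_Cm := tCm iSd iSr sKv
theorem sF1 : S_F1 := tF1 iLa sLz sUp sCm
theorem sF2 : S_F2 := tF2 iLa iSb sRp sLz sUp sCm sF1
theorem sPl : S_Pl := tPl iLa
theorem sAl : S_Al := tAl iLa sPl
theorem sRs : S_Rs := tRs KO.sOnb iSb iSc sRp sCm sF2 sAl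
theorem sR1 : S_R1 := tR1 sUp sRs
theorem sTp : S_Tp := tTp iSb
theorem sMn : S_Mn := tMn iSb sPw sR1 sTp
theorem sEn : S_En := tEn iBr1
theorem sFin : S_Fin := tFin iBr2 sDu sMn sEn

end Pool.Agent.Lib.MP_9d59e9_gt.ND
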