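import Pool.Agent.Lib.MP_9d59e9_gt.KO.Spec

/-!
# MP_9d59e9_gt, project ND: definitions

The definitions of project KO are used (`KO/Defs.lean`: `Pt`, `curv`, `nablaR`, `KSAt`, `IsMetricOn`,
`TF`, `Sm`, `ev`, `e4`, `D`, `ip`, `Rv`, `R4`, `Chr`, `Cv`, `Lin1`, `IP`, `Crvt`).

First part: the only new definition of the final statement.  Second part: lists of vectors as arguments
of `∇^j R` (a copy of the definitions of project KS, so that the modules do not have to import the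
modules of KO3 and KS).  Third part: the new notions.
-/

set_option autoImplicit false

namespace Pool.Agent.Lib.MP_9d59e9_gt.ND

open scoped BigOperators ContDiff
open KO

noncomputable section

/-! ## part 1: definition of the final statement -/

/-- the linear span of the endomorphisms `(∇^k R)_x(∂_{c₁}, …, ∂_{c_k}; ∂_m, ∂_p)`, `k < r`, of the
tangent space at `x`, as matrices (row = upper index `a`, column = lower index `b` of
`∇_{c₁} ⋯ ∇_{c_k} R^a_{b m p}`) -/
def hol {n : ℕ} (g : Pt n → Matrix (Fin n) (Fin n) ℝ) (r : ℕ) (x : Pt n) :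
    Submodule ℝ (Matrix (Fin n) (Fin n) ℝ) :=
  Submodule.span ℝ {M | ∃ (c : List (Fin n)) (m p : Fin n), c.length < r ∧
    M = Matrix.of fun a b => nablaR g c.length a (c ++ [b, m, p]) x}

/-! ## part 2: lists of vectors -/

/-- derivation sum `∑ᵢ F(l with lᵢ replaced by mᵢ)` -/
def dS {V : Type} : (List V → ℝ) → List V → List V → ℝ
  | F, a :: l, b :: m => F (b :: l) + dS (fun l' => F (a :: l')) l m
  | _, _, _ => 0

/-- `F` is multilinear on lists of length `k` -/
def MlL {V : Type} [AddCommGroup V] [Module ℝ V] (F : List V → ℝ) (k : ℕ) : Prop :=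
  ∀ l₁ l₂ : List V, l₁.length + l₂.length + 1 = k → Lin1 fun a => F (l₁ ++ a :: l₂)

/-- linear map -/
structure LinE {V : Type} [AddCommGroup V] [Module ℝ V] (Φ : V → V) : Prop where
  add : ∀ a b, Φ (a + b) = Φ a + Φ b
  smul : ∀ (r : ℝ) a, Φ (r • a) = r • Φ a

/-- `∇^j R` as a covariant tensor field of rank `4 + j`; the derivative slots come first -/
def SJ {n : ℕ} (g : Pt n → Matrix (Fin n) (Fin n) ℝ) : (j : ℕ) → TF n (4 + j)
  | 0 => R4 g
  | j + 1 => D g (SJ g j)

/-- evaluation on the vectors of a list -/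
def el {n k : ℕ} (T : TF n k) (x : Pt n) (l : List (Pt n)) : ℝ := ev T x fun i => l.getD i 0

/-- the value of `∇^j R` at `x` on the list `l` of length `4 + j` -/
def S {n : ℕ} (g : Pt n → Matrix (Fin n) (Fin n) ℝ) (x : Pt n) (l : List (Pt n)) : ℝ :=
  el (SJ g (l.length - 4)) x l

/-- the endomorphism `Φ` annihilates `∇^(k-4) R` at `x` -/
def Kl {n : ℕ} (g : Pt n → Matrix (Fin n) (Fin n) ℝ) (x : Pt n) (Φ : Pt n → Pt n) (k : ℕ) : Prop :=
  ∀ l : List (Pt n), l.length = k → dS (S g x) l (l.map Φ) = 0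

/-- the coefficient `t m` as a tensor field -/
def tT {n : ℕ} (t : ℕ → List (Fin n) → Pt n → ℝ) (m : ℕ) : TF n m := fun I x => t m (List.ofFn I) x

/-! ## part 3: the new notions -/

/-- the 2-vector `∑ C_{ij} ∂_i ∧ ∂_j` is annihilated by all `∇^k R`, `k < r`, at `x` -/
def Nul {n : ℕ} (g : Pt n → Matrix (Fin n) (Fin n) ℝ) (r : ℕ) (x : Pt n)
    (C : Fin n → Fin n → ℝ) : Prop :=
  ∀ (w : List (Pt n)) (a b : Pt n), w.length < r →
    ∑ i, ∑ j, C i j * S g x (w ++ [bv i, bv j, a, b]) = 0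

/-- a decomposable 2-form `τ ∧ σ` which vanishes on all these 2-vectors is zero -/
def Nd {n : ℕ} (g : Pt n → Matrix (Fin n) (Fin n) ℝ) (r : ℕ) (x : Pt n) : Prop :=
  ∀ τ σ : Pt n → ℝ, Lin1 τ → Lin1 σ →
    (∀ C, Nul g r x C → ∑ i, ∑ j, C i j * (τ (bv i) * σ (bv j) - τ (bv j) * σ (bv i)) = 0) →
    ∀ u v, τ u * σ v = τ v * σ u

/-- the vector `(∇_w R)_x(u, v) a` -/
def Rw {n : ℕ} (g : Pt n → Matrix (Fin n) (Fin n) ℝ) (x : Pt n) (w : List (Pt n))
    (u v a : Pt n) : Pt n := fun i => ∑ b, (g x)⁻¹ i b * S g x (w ++ [u, v, a, bv b])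

/-- all splittings of a list into two complementary sublists -/
def spl {V : Type} : List V → List (List V × List V)
  | [] => [([], [])]
  | a :: u => (spl u).map (fun e => (a :: e.1, e.2)) ++ (spl u).map (fun e => (e.1, a :: e.2))

/-- `∑ᵢ (∇_B ∇^j R)(l with lᵢ replaced by (∇_A R)(u, v) lᵢ)` -/
def TT {n : ℕ} (g : Pt n → Matrix (Fin n) (Fin n) ℝ) (x : Pt n) (A B : List (Pt n)) (u v : Pt n)
    (l : List (Pt n)) : ℝ :=
  dS (fun l' => S g x (B ++ l')) l (l.map fun a => Rw g x A u v a)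

/-- the vector at `p + t X` with covariant derivative `0` at `t = 0` -/
def mv {n : ℕ} (g : Pt n → Matrix (Fin n) (Fin n) ℝ) (p X : Pt n) (t : ℝ) (v : Pt n) : Pt n :=
  v - t • Chr g p X v

/-- `∇^s R = 0` at `x` -/
def Zr {n : ℕ} (g : Pt n → Matrix (Fin n) (Fin n) ℝ) (s : ℕ) (x : Pt n) : Prop :=
  ∀ l : List (Pt n), l.length = s + 4 → S g x l = 0

/-- the equation of order `r` at `x` -/
def EqR {n : ℕ} (g : Pt n → Matrix (Fin n) (Fin n) ℝ) (r : ℕ) (τ : (m : ℕ) → TF n m)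
    (x : Pt n) : Prop :=
  ∀ l : List (Pt n), l.length = r + 4 →
    S g x l + ∑ m ∈ Finset.Icc 1 r, el (τ m) x (l.take m) * S g x (l.drop m) = 0

end

end Pool.Agent.Lib.MP_9d59e9_gt.ND
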