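import Pool.Agent.Lib.MP_9d59e9_gt.ND.Defs

/-!
# MP_9d59e9_gt, project ND (owner helper81): holonomy without rank two elements

THEOREM ND.  Let `g` be a smooth Riemannian metric on an open set `Ω ⊆ ℝⁿ` with
`∇^r R + ∑ t^m ⊗ ∇^{r-m} R = 0` on `Ω`, with arbitrary coefficients.  If for all `x` in a dense subset of
`Ω` the span of the endomorphisms `(∇^k R)_x(…; u, v)`, `k < r`, contains no element of rank two, then
`∇R = 0` on `Ω`.

Every `S_X` is a statement with its complete proof in the docstring; it is to be proved as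
`theorem tX (h… : the statements listed as Available, in that order) : S_X` in the file `X.lean` of
this directory (import `Pool.Agent.Lib.MP_9d59e9_gt.ND.Spec` only).  The statements `I_X` (interface) are
theorems of the projects KO and KS; they are hypotheses in the modules.  The statements `KO.S_X` are
those of `KO/Spec.lean`.  The complete proof on paper is the note `project ND` of helper81.

Notation: `S(l) = S g x l` is the value of `∇^j R` at `x` on the list `l` of `j + 4` vectors, the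
derivative slots (letters) come first; `⟨a,b⟩ = ip g x a b`.
-/

set_option autoImplicit false

namespace Pool.Agent.Lib.MP_9d59e9_gt.ND

open scoped BigOperators ContDiff
open Set KO

noncomputable section

/-! ## I. interface (proved in KO, KS) -/

/-- rules for `dS` and `MlL` -/
def I_La : Prop :=
  ∀ (V : Type) [AddCommGroup V] [Module ℝ V],
    (∀ (F : List V → ℝ) (l₁ m₁ l₂ m₂ : List V), l₁.length = m₁.length →
      dS F (l₁ ++ l₂) (m₁ ++ m₂)
        = dS (fun l => F (l ++ l₂)) l₁ m₁ + dS (fun l => F (l₁ ++ l)) l₂ m₂) ∧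
    (∀ (F G : List V → ℝ) (l m : List V), l.length = m.length →
      (∀ l' : List V, l'.length = l.length → F l' = G l') → dS F l m = dS G l m) ∧
    (∀ (F : List V → ℝ) (l m : List V), MlL F l.length → l.length = m.length →
      (∀ b ∈ m, b = 0) → dS F l m = 0) ∧
    (∀ (F : List V → ℝ) (l : List V), MlL F l.length → ∀ (ι : Type) (s : Finset ι) (w : ι → ℝ)
      (Φ : ι → V → V), dS F l (l.map fun a => ∑ i ∈ s, w i • Φ i a)
        = ∑ i ∈ s, w i * dS F l (l.map (Φ i))) ∧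
    (∀ (F : List V → ℝ) (k : ℕ), MlL F k → ∀ Φ : V → V, LinE Φ →
      MlL (fun l => dS F l (l.map Φ)) k) ∧
    (∀ (F : List V → ℝ) (k : ℕ), MlL F (k + 1) → (∀ a, MlL (fun l => F (a :: l)) k) ∧
      ∀ l : List V, l.length = k → Lin1 fun a => F (a :: l)) ∧
    ∀ (F : List V → ℝ) (l m : List V), l.length = m.length →
      dS F l m = ∑ i ∈ Finset.range l.length, F (l.set i (m.getD i 0))

/-- a multilinear function which vanishes on lists of coordinate vectors vanishes -/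
def I_Ex : Prop :=
  ∀ (n k : ℕ) (F : List (Pt n) → ℝ), MlL F k →
    (∀ c : List (Fin n), c.length = k → F (c.map fun i => bv i) = 0) →
    ∀ l : List (Pt n), l.length = k → F l = 0

/-- first properties of `S` -/
def I_Sb : Prop :=
  ∀ (n : ℕ) (g : Pt n → Matrix (Fin n) (Fin n) ℝ) (x : Pt n),
    (∀ (k : ℕ) (T : TF n k), MlL (el T x) k) ∧ (∀ k : ℕ, 4 ≤ k → MlL (S g x) k) ∧
    (∀ a b c d, S g x [a, b, c, d] = e4 (R4 g) x a b c d) ∧
    ∀ Ω : Set (Pt n), IsMetricOn g Ω → (∀ j, Sm Ω (SJ g j)) ∧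
      ∀ l : List (Pt n), 4 ≤ l.length → ContinuousOn (fun x => S g x l) Ω

/-- the curve lemma for lists; `L` is a list of triples (curve of vectors, its value at `0`, its
covariant derivative) -/
def I_Sd : Prop :=
  ∀ (n : ℕ) (g : Pt n → Matrix (Fin n) (Fin n) ℝ) (Ω : Set (Pt n)), IsMetricOn g Ω →
    ∀ p ∈ Ω, ∀ X : Pt n,
      (∀ L : List ((ℝ → Pt n) × Pt n × Pt n), 4 ≤ L.length →
        (∀ e ∈ L, Cv g p X e.1 e.2.1 e.2.2) →
        HasDerivAt (fun t : ℝ => S g (p + t • X) (L.map fun e => e.1 t))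
          (S g p (X :: L.map fun e => e.2.1)
            + dS (S g p) (L.map fun e => e.2.1) (L.map fun e => e.2.2)) 0) ∧
      ∀ l : List (Pt n), 4 ≤ l.length →
        HasDerivAt (fun t : ℝ => S g (p + t • X) (l.map (mv g p X t))) (S g p (X :: l)) 0

/-- Ricci identity for lists -/
def I_Sr : Prop :=
  ∀ (n : ℕ) (g : Pt n → Matrix (Fin n) (Fin n) ℝ) (Ω : Set (Pt n)), IsMetricOn g Ω →
    ∀ p ∈ Ω, ∀ (x y : Pt n) (l : List (Pt n)), 4 ≤ l.length →
      S g p (x :: y :: l) - S g p (y :: x :: l) = -dS (S g p) l (l.map (Rv g p x y))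

/-- symmetries of `∇^j R` -/
def I_Sc : Prop :=
  ∀ (n : ℕ) (g : Pt n → Matrix (Fin n) (Fin n) ℝ) (Ω : Set (Pt n)), IsMetricOn g Ω →
    ∀ x ∈ Ω, ∀ w : List (Pt n), Crvt (fun a b c d => S g x (w ++ [a, b, c, d])) ∧
      ∀ z a b c d, S g x (w ++ [z, a, b, c, d]) + S g x (w ++ [a, b, z, c, d])
        + S g x (w ++ [b, z, a, c, d]) = 0

/-- descent for the curvature endomorphisms -/
def I_Ds : Prop :=
  ∀ (n : ℕ) (g : Pt n → Matrix (Fin n) (Fin n) ℝ) (Ω : Set (Pt n)), IsMetricOn g Ω →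
    ∀ p ∈ Ω, ∀ (x y : Pt n) (k : ℕ), 4 ≤ k → Kl g p (Rv g p x y) (k + 2) → Kl g p (Rv g p x y) k

/-- components of `∇^j R` in the two formalisms -/
def I_Br1 : Prop :=
  ∀ (n : ℕ) (g : Pt n → Matrix (Fin n) (Fin n) ℝ) (Ω : Set (Pt n)), IsMetricOn g Ω →
    ∀ x ∈ Ω, ∀ (c : List (Fin n)) (m p b d : Fin n),
      S g x ((c ++ [m, p, b, d]).map fun i => bv i)
        = ∑ e, g x e d * nablaR g c.length e (c ++ [b, m, p]) x

/-- the equation on vectors -/
def I_Br2 : Prop :=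
  ∀ (n : ℕ) (g : Pt n → Matrix (Fin n) (Fin n) ℝ) (Ω : Set (Pt n)) (r : ℕ), IsMetricOn g Ω →
    ∀ t : ℕ → List (Fin n) → Pt n → ℝ, (∀ x ∈ Ω, KSAt g r (fun m l => t m l x) x) →
    ∀ x ∈ Ω, EqR g r (tT t) x

/-! ## A. the Leibniz formula -/

/-- **Rp** (the vector `(∇_w R)(u,v)a`).  Available: `KO.S_Up`, `KO.S_Sym`, `I_Sb`.
Proof.  (1) `⟨Rw, z⟩ = ∑_{i,k} g_{ik} (∑_b g^{ib} S(w ++ [u,v,a,e_b])) z_k = ∑_k S(w ++ [u,v,a,e_k]) z_k`
(`g⁻¹ g = 1`: `Matrix.mul_nonsing_inv`, `(g x).PosDef` is invertible and symmetric) `= S(w ++ [u,v,a,z])`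
by linearity of `S` in the last slot (`I_Sb`, `MlL` with `l₂ = []`; `z = ∑ z_k • bv k`).
(2) nondegeneracy is `KO.S_Up`, second part.  (3) by (1), (2), `I_Sb` and `KO.S_Sym`
(`⟨Rv u v a, z⟩ = e4 (R4 g) x u v a z`).  (4) `LinE`: by (1), (2) and linearity of `S` in the slot of `a`
(or directly from the definition).  (5) by (1), (2) and bilinearity of `ip`: the inner product of the left
side with `z` is `∑ C i j S(w ++ [e_i, e_j, a, z]) = 0`. -/
def S_Rp : Prop :=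
  ∀ (n : ℕ) (g : Pt n → Matrix (Fin n) (Fin n) ℝ) (Ω : Set (Pt n)), IsMetricOn g Ω → ∀ x ∈ Ω,
    (∀ w u v a z, ip g x (Rw g x w u v a) z = S g x (w ++ [u, v, a, z])) ∧
    (∀ u w, (∀ z, ip g x u z = ip g x w z) → u = w) ∧
    (∀ u v a, Rw g x [] u v a = Rv g x u v a) ∧
    (∀ w u v, LinE (Rw g x w u v)) ∧
    ∀ (r : ℕ) (C : Fin n → Fin n → ℝ), Nul g r x C → ∀ (w : List (Pt n)) (a : Pt n),
      w.length < r → ∑ i, ∑ j, C i j • Rw g x w (bv i) (bv j) a = 0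

/-- **Rc** (curve lemma for `Rw`).  Available: `KO.S_Smo`, `KO.S_Cvb`, `KO.S_CvI`, `I_Sb`, `I_Sd`, `S_Rp`.
Proof (the same as that of `KO.S_CvU`, see `KO/CvU.lean`).  Let `W(t)` be the curve.  Its components
`∑_b (g (p+tX))⁻¹ i b * S g (p+tX) (mv w ++ [mv u, mv v, mv a, bv b])` are differentiable at `0`:
`(g x)⁻¹ i b` is smooth on `Ω` (`KO.S_Smo`), and `S` along these curves by `I_Sd` (first part; the curves
`mv g p X · v` have `Cv … v 0`, the constant curve `bv b` has a covariant derivative: `KO.S_Cvb`).  So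
`W` has a derivative `W'` at `0`, and with `η = W' + Chr g p X (W 0)` we have `Cv g p X W (W 0) η`.  For a
vector `z` differentiate `⟨W(t), mv z⟩_{p+tX} = S g (p+tX) (mv w ++ [mv u, mv v, mv a, mv z])` (true for `t`
near `0`, `S_Rp` (1)) at `0`: left side `⟨η, z⟩ + ⟨W(0), 0⟩` (`KO.S_CvI`), right side
`S g p (X :: w ++ [u,v,a,z]) = ⟨Rw g p (X :: w) u v a, z⟩` (`I_Sd`, second part).  Nondegeneracy
(`S_Rp` (2)): `η = Rw g p (X :: w) u v a`. -/
def S_Rc : Prop :=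
  ∀ (n : ℕ) (g : Pt n → Matrix (Fin n) (Fin n) ℝ) (Ω : Set (Pt n)), IsMetricOn g Ω →
    ∀ p ∈ Ω, ∀ (X : Pt n) (w : List (Pt n)) (u v a : Pt n),
      Cv g p X (fun t => Rw g (p + t • X) (w.map (mv g p X t)) (mv g p X t u) (mv g p X t v)
        (mv g p X t a)) (Rw g p w u v a) (Rw g p (X :: w) u v a)

/-- **Tc** (curve lemma for `TT`).  Available: `KO.S_Cvb`, `I_La`, `I_Sb`, `I_Sd`, `S_Rc`.
Proof.  By `I_La` (last part) `TT g q A B u v l = ∑_{i < l.length} S g q (B ++ l.set i (Rw g q A u v l_i))`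
(`l_i = l.getD i 0`; for `i < l.length` `(l.map Φ).getD i 0 = Φ (l.getD i 0)`), for `q = p + tX` and the
moved lists (`List.map` commutes with `set`, `++`, `getD` for `i < l.length`).  Differentiate the summand
number `i` with the first part of `I_Sd`, `L` = the triples `(mv b, b, 0)` for the entries `b` of `B` and of
`l`, except that the entry number `i` of `l` is replaced by the triple
`(curve of S_Rc, Rw g p A u v l_i, Rw g p (X :: A) u v l_i)`.  The derivative is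
`S g p (X :: B ++ l.set i (Rw g p A u v l_i)) + dS (S g p) (…) (…)`, and in the `dS` only the entry number
`i` has a covariant derivative which is not `0`: it is `S g p (B ++ l.set i (Rw g p (X :: A) u v l_i))`
(`I_La`, last part; a multilinear function with an entry `0` vanishes).  Sum over `i` and use `I_La` (last
part) again. -/
def S_Tc : Prop :=
  ∀ (n : ℕ) (g : Pt n → Matrix (Fin n) (Fin n) ℝ) (Ω : Set (Pt n)), IsMetricOn g Ω →
    ∀ p ∈ Ω, ∀ (X : Pt n) (A B : List (Pt n)) (u v : Pt n) (l : List (Pt n)), 4 ≤ l.length →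
      HasDerivAt (fun t : ℝ => TT g (p + t • X) (A.map (mv g p X t)) (B.map (mv g p X t))
        (mv g p X t u) (mv g p X t v) (l.map (mv g p X t)))
        (TT g p (X :: A) B u v l + TT g p A (X :: B) u v l) 0

/-- **Lz** (the Leibniz formula).  Available: `I_Sd`, `I_Sr`, `S_Rp`, `S_Tc`.
Proof: induction on `u`, for all `p ∈ Ω`, `a, b, l` at once.  `u = []`: `spl [] = [([], [])]`,
`TT g p [] [] a b l = dS (S g p) l (l.map (Rv g p a b))` (`S_Rp` (3)), `I_Sr`.  Step `X :: u`: for `t` near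
`0` the point `p + t • X` is in `Ω`, and the induction hypothesis there, for the moved lists, reads
`S g (p+tX) ((u ++ a :: b :: l).map (mv t)) - S g (p+tX) ((u ++ b :: a :: l).map (mv t))
 = -((spl u).map fun e => TT g (p+tX) (e.1.map (mv t)) (e.2.map (mv t)) (mv t a) (mv t b) (l.map (mv t))).sum`
(`spl (u.map f) = (spl u).map (fun e => (e.1.map f, e.2.map f))`, induction on `u`).  Both sides have a
derivative at `0` (`I_Sd`, second part; `S_Tc` and induction on the list for the sum), so the derivatives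
agree: on the left `S g p (X :: u ++ a :: b :: l) - S g p (X :: u ++ b :: a :: l)`, on the right
`-((spl u).map fun e => TT g p (X :: e.1) e.2 a b l + TT g p e.1 (X :: e.2) a b l).sum`, which is the sum over
`spl (X :: u)` by definition. -/
def S_Lz : Prop :=
  ∀ (n : ℕ) (g : Pt n → Matrix (Fin n) (Fin n) ℝ) (Ω : Set (Pt n)), IsMetricOn g Ω →
    ∀ (u : List (Pt n)), ∀ p ∈ Ω, ∀ (a b : Pt n) (l : List (Pt n)), 4 ≤ l.length →
      S g p (u ++ a :: b :: l) - S g p (u ++ b :: a :: l)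
        = -((spl u).map fun e => TT g p e.1 e.2 a b l).sum

/-- **Nl** (neighbouring letters commute on the 2-vectors `Nul`).  Available: `I_La`, `I_Sb`, `S_Rp`,
`S_Lz`.  Proof.  By `S_Lz` the left side is `-∑_{e ∈ spl u} ∑ᵢⱼ C i j TT g p e.1 e.2 (bv i) (bv j) l`, and
every `e ∈ spl u` has `e.1.length + e.2.length = u.length` (induction), so `e.1.length < r`.  By `I_La`
(linearity of `dS F l (l.map ·)`, with `ι = Fin n × Fin n` or twice; `F = S g p (e.2 ++ ·)` is multilinear on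
lists of the length of `l`, from `I_Sb`) the inner sum is
`dS F l (l.map fun a => ∑ᵢⱼ C i j • Rw g p e.1 (bv i) (bv j) a) = dS F l (l.map fun _ => 0) = 0`
(`S_Rp` (5); `I_La` (3)). -/
def S_Nl : Prop :=
  ∀ (n : ℕ) (g : Pt n → Matrix (Fin n) (Fin n) ℝ) (Ω : Set (Pt n)) (r : ℕ), IsMetricOn g Ω →
    ∀ p ∈ Ω, ∀ C, Nul g r p C → ∀ u l : List (Pt n), u.length < r → 4 ≤ l.length →
      ∑ i, ∑ j, C i j * (S g p (u ++ bv i :: bv j :: l) - S g p (u ++ bv j :: bv i :: l)) = 0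

/-! ## B. the rank condition -/

/-- **Rk** (rank of a decomposable 2-form).  Proof.  `M = τ σᵀ - σ τᵀ`
(`Matrix.vecMulVec τ σ - Matrix.vecMulVec σ τ`) has rank `≤ 2` (`Matrix.rank_add_le` or `rank_sub_le`,
`Matrix.rank_vecMulVec_le`; or: the range of `M.mulVecLin` is contained in the span of `τ, σ`).  If some
entry `μ = M i j` is not `0`, then `i ≠ j` and the columns `j` and `i` of `M` are linearly independent (look
at the entries `i` and `j`: the 2 × 2 matrix `(0 μ; -μ 0)` is invertible), so the rank is `≥ 2`, hence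
`= 2`: contradiction.  So all entries are `0`. -/
def S_Rk : Prop :=
  ∀ (n : ℕ) (τ σ : Fin n → ℝ), (Matrix.of fun i j => τ i * σ j - τ j * σ i : Matrix (Fin n) (Fin n) ℝ).rank
    ≠ 2 → ∀ i j, τ i * σ j = τ j * σ i

/-- **Dm** (duality).  Available: `I_Ex`, `I_Sb`, `I_Sc`, `I_Br1`.
Proof.  The set `W` of all `Eᵀ * g x`, `E ∈ hol g r x`, is a submodule (image of `hol` under a linear map).
Suppose `M ∉ W`.  There is a linear function `f` on the matrices with `f = 0` on `W` and `f M ≠ 0`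
(`Submodule.exists_le_ker_of_notMem` or `Submodule.exists_dual_map_eq_bot_of_notMem`).  Put
`C i j = f (Matrix.single i j 1)`; then `f N = ∑ C i j * N i j` for all `N` (`Matrix.matrix_eq_sum_single`).
Claim: `Nul g r x C`.  Fix `k < r`.  The function
`G(l) = ∑ C i j * S g x (l.take k ++ [bv i, bv j] ++ l.drop k)` is multilinear on lists of length `k + 2`
(`I_Sb`), so by `I_Ex` it is enough to see that it vanishes on the lists `(c ++ [m, p]).map bv`,
`c.length = k`.  By `I_Sc` (pair symmetry `Crvt.sw`) and `I_Br1`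
`S(c, e_i, e_j, e_m, e_p) = S(c, e_m, e_p, e_i, e_j) = ∑_e g_{ej} nablaR g k e (c ++ [i, m, p]) = (Eᵀ * g) i j`
with the generator `E = Matrix.of fun a b => nablaR g k a (c ++ [b, m, p])` of `hol`.  So
`G = f (Eᵀ * g x) = 0`.  Now the hypothesis says `f M = ∑ C i j * M i j = 0`, a contradiction. -/
def S_Dm : Prop :=
  ∀ (n : ℕ) (g : Pt n → Matrix (Fin n) (Fin n) ℝ) (Ω : Set (Pt n)) (r : ℕ), IsMetricOn g Ω →
    ∀ x ∈ Ω, ∀ M : Matrix (Fin n) (Fin n) ℝ, (∀ C, Nul g r x C → ∑ i, ∑ j, C i j * M i j = 0) →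
      ∃ E ∈ hol g r x, M = E.transpose * g x

/-- **Du** (the rank condition gives `Nd`).  Available: `S_Rk`, `S_Dm`.
Proof.  Let `τ, σ` be as in `Nd`, `M = Matrix.of fun i j => τ(bv i) σ(bv j) - τ(bv j) σ(bv i)`.  `S_Dm`:
`M = Eᵀ * g x` with `E ∈ hol g r x`.  `g x` is invertible, so `M.rank = Eᵀ.rank = E.rank ≠ 2`
(`Matrix.rank_mul_eq_left_of_isUnit_det`, `Matrix.rank_transpose`).  `S_Rk`:
`τ(bv i) σ(bv j) = τ(bv j) σ(bv i)`, and by linearity (`u = ∑ u i • bv i`) the same for all `u, v`. -/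
def S_Du : Prop :=
  ∀ (n : ℕ) (g : Pt n → Matrix (Fin n) (Fin n) ℝ) (Ω : Set (Pt n)) (r : ℕ), IsMetricOn g Ω →
    ∀ x ∈ Ω, (∀ E ∈ hol g r x, E.rank ≠ 2) → Nd g r x

/-! ## C. the pointwise argument -/

/-- **Kq** (the last nonzero coefficient).  Available: `KO.S_Onb`, `I_Sb`, `S_Nl`.
Proof.  Let `u` have length `q - 1`, `l` length `r - q + 3`, `C` with `Nul g r p C`.  For all `i, j` subtract
the equations for the lists `u ++ bv i :: bv j :: l` and `u ++ bv j :: bv i :: l`, multiply by `C i j` and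
sum.  The first terms: `0` by `S_Nl`.  A term with `m ≤ q - 1`: the lists `take m` are both `u.take m`, the
lists `drop m` are `u.drop m ++ bv i :: bv j :: l` and `u.drop m ++ bv j :: bv i :: l`: `0` by `S_Nl`.  The
terms with `m > q` are `0`.  `m = q`: `take q = u ++ [bv i]`, `drop q = bv j :: l`.  So
`∑ C i j (τ(bv i) σ(bv j) - τ(bv j) σ(bv i)) = 0` for `τ = fun x => el (τ q) p (u ++ [x])`,
`σ = fun y => S g p (y :: l)` (linear, `I_Sb`), and `Nd` gives `τ(x) σ(y) = τ(y) σ(x)` for all `x, y`.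
By hypothesis there are `u`, `x₀` with `τ(x₀) ≠ 0` (a list of length `q ≥ 1` is `u ++ [x₀]`).  Riesz
(`KO.S_Onb`, `IP.riesz`): `τ = ⟨T, ·⟩`, `T ≠ 0`, `e = (1/√⟨T,T⟩) • T`.  If `⟨e, z⟩ = 0` then `τ(z) = 0` and
`τ(x₀) S(z :: l) = τ(z) S(x₀ :: l) = 0`. -/
def S_Kq : Prop :=
  ∀ (n : ℕ) (g : Pt n → Matrix (Fin n) (Fin n) ℝ) (Ω : Set (Pt n)) (r : ℕ)
    (τ : (m : ℕ) → TF n m), IsMetricOn g Ω → ∀ p ∈ Ω, EqR g r τ p → Nd g r p →
    ∀ q, 1 ≤ q → q < r → (∀ m, q < m → m ≤ r → ∀ l : List (Pt n), l.length = m →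
      el (τ m) p l = 0) → (∃ l : List (Pt n), l.length = q ∧ el (τ q) p l ≠ 0) →
    ∃ e, ip g p e e = 1 ∧ ∀ z, ip g p e z = 0 → ∀ l : List (Pt n), l.length = r - q + 3 →
      S g p (z :: l) = 0

/-- **Lt** (all letters of `∇^s R` are parallel to `e`).  Available: `KO.S_Onb`, `I_Sb`, `S_Nl`.
Proof: induction on `u` from the right, i.e. on its length (for all `z, l`).  `u = []`: hypothesis.  Let
`u = u₀ ++ [x]`.  Write `x = ⟨e,x⟩ e + x'`, `⟨e,x'⟩ = 0`; by induction (`u₀`, the vector `x'`, the list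
`z :: l`) `S(u₀ ++ x' :: z :: l) = 0`, so `S(u₀ ++ x :: z :: l) = ⟨e,x⟩ φ(z)`, `φ(y) = S(u₀ ++ e :: y :: l)`, and
the same for all `x, z`: `S(u₀ ++ x :: y :: l) = ⟨e,x⟩ φ(y)`.  For `C` with `Nul g r p C` the statement `S_Nl`
(`u₀.length < r` because `u₀.length ≤ s < r`) gives
`∑ C i j (⟨e,bv i⟩ φ(bv j) - ⟨e,bv j⟩ φ(bv i)) = 0`, so by `Nd` `⟨e,x⟩ φ(z) = ⟨e,z⟩ φ(x)` for all `x, z`;
for `⟨e,z⟩ = 0` this is `S(u₀ ++ x :: z :: l) = 0`. -/
def S_Lt : Prop :=
  ∀ (n : ℕ) (g : Pt n → Matrix (Fin n) (Fin n) ℝ) (Ω : Set (Pt n)) (r : ℕ), IsMetricOn g Ω →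
    ∀ p ∈ Ω, Nd g r p → ∀ s, s < r → ∀ e, ip g p e e = 1 →
    (∀ z, ip g p e z = 0 → ∀ l : List (Pt n), l.length = s + 3 → S g p (z :: l) = 0) →
    ∀ (u : List (Pt n)) (z : Pt n) (l : List (Pt n)), u.length + 1 + l.length = s + 4 →
      4 ≤ l.length → ip g p e z = 0 → S g p (u ++ z :: l) = 0

/-- **Fz** (a curvature tensor `e ∧ ψ` vanishes).  Available: `KO.S_Onb`, `I_Sb`, `I_Sc`.
Proof.  Fix `a, b` and let `ω(c,d) = S(w ++ [c,d,a,b])` (bilinear, skew by `I_Sc`).  `ω(c,d) = 0` for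
`⟨e,c⟩ = ⟨e,d⟩ = 0`.  With `c = ⟨e,c⟩ e + c'`, `d = ⟨e,d⟩ e + d'`: `ω(c,d) = ⟨e,c⟩ ψ(d) - ⟨e,d⟩ ψ(c)`,
`ψ(d) = ω(e,d)` (`ω(e,e) = 0`).  For `C` with `Nul g r p C` the definition of `Nul` (`w.length < r`) gives
`∑ C i j ω(bv i, bv j) = 0`, so by `Nd` `⟨e,c⟩ ψ(d) = ⟨e,d⟩ ψ(c)` for all `c, d`, i.e. `ω = 0`.
Pair symmetry (`I_Sc`, `Crvt.sw`) gives the claim. -/
def S_Fz : Prop :=
  ∀ (n : ℕ) (g : Pt n → Matrix (Fin n) (Fin n) ℝ) (Ω : Set (Pt n)) (r : ℕ), IsMetricOn g Ω →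
    ∀ p ∈ Ω, Nd g r p → ∀ w : List (Pt n), w.length < r → ∀ e, ip g p e e = 1 →
    (∀ a b, ip g p e a = 0 → ip g p e b = 0 → ∀ c d, S g p (w ++ [a, b, c, d]) = 0) →
    ∀ a b c d, S g p (w ++ [a, b, c, d]) = 0

/-- **Zs** (`∇^s R = 0`, case `s ≥ 1`).  Available: `KO.S_Onb`, `I_Sb`, `I_Sc`, `S_Lt`, `S_Fz`.
Proof.  By `S_Lt` `S(u ++ z :: l) = 0` whenever `⟨e,z⟩ = 0` (`4 ≤ l.length`, total length `s + 4`).  A list
of length `s + 4` is `w ++ [a,b,c,d]` with `w.length = s ≥ 1`, `w = u ++ [z]`.  Let `⟨e,a⟩ = ⟨e,b⟩ = 0`.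
`S(u ++ [e,a,b,c,d]) = 0`: `I_Sc` (second part) and `S(u ++ [a,b,e,c,d]) = 0 = S(u ++ [b,e,a,c,d])` (letter
orthogonal to `e`).  `z = ⟨e,z⟩ e + z'` and linearity (`I_Sb`): `S(u ++ [z,a,b,c,d]) = 0` for all `z`.
`S_Fz` (`w.length = s < r`). -/
def S_Zs : Prop :=
  ∀ (n : ℕ) (g : Pt n → Matrix (Fin n) (Fin n) ℝ) (Ω : Set (Pt n)) (r : ℕ), IsMetricOn g Ω →
    ∀ p ∈ Ω, Nd g r p → ∀ s, 1 ≤ s → s < r → ∀ e, ip g p e e = 1 →
    (∀ z, ip g p e z = 0 → ∀ l : List (Pt n), l.length = s + 3 → S g p (z :: l) = 0) → Zr g s p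

/-- **Z0** (`t^r ≠ 0`).  Available: `KO.S_Onb`, `I_Sb`, `I_Sc`, `S_Fz`.
Proof.  Let `w` have length `r - 1`.  Take the equation on the three lists `w ++ [z,a,b,c,d]`,
`w ++ [a,b,z,c,d]`, `w ++ [b,z,a,c,d]` and add.  The sum of the first terms vanishes (`I_Sc`, second part);
for `m < r` (`m ≤ w.length`) `take m` is the same list for all three and the sum of the `S(drop m …)`
vanishes (`I_Sc`).  There remains `m = r`:
`σ(z) R(a,b,c,d) + σ(a) R(b,z,c,d) + σ(b) R(z,a,c,d) = 0`, `σ(z) = el (τ r) p (w ++ [z])`, `R = S` on lists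
of length `4` (this is the proof of `KS.S_Tr`, see `KS/Tr.lean`).  Choose `w` with `σ ≠ 0`; Riesz
(`KO.S_Onb`): `σ = ⟨T,·⟩`, `e = T/√⟨T,T⟩`.  For `z = e`, `⟨e,a⟩ = ⟨e,b⟩ = 0`: `σ(e) R(a,b,c,d) = 0`, `σ(e) ≠ 0`.
`S_Fz` with `w = []` (`0 < r`). -/
def S_Z0 : Prop :=
  ∀ (n : ℕ) (g : Pt n → Matrix (Fin n) (Fin n) ℝ) (Ω : Set (Pt n)) (r : ℕ)
    (τ : (m : ℕ) → TF n m), IsMetricOn g Ω → ∀ p ∈ Ω, EqR g r τ p → Nd g r p → 1 ≤ r →
    (∃ l : List (Pt n), l.length = r ∧ el (τ r) p l ≠ 0) → Zr g 0 p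

/-- **Pw** (some `∇^s R` vanishes at the point).  Available: `S_Kq`, `S_Zs`, `S_Z0`.
Proof.  If `el (τ m) p l = 0` for all `1 ≤ m ≤ r` and `l` of length `m`, then the equation says
`Zr g r p`.  Otherwise let `q` be the largest `m ∈ [1, r]` for which this fails (`Nat.findGreatest` or
`Finset.exists_max_image`).  If `q = r`: `S_Z0`, `s = 0`.  If `q < r`: `S_Kq` and `S_Zs` with `s = r - q`. -/
def S_Pw : Prop :=
  ∀ (n : ℕ) (g : Pt n → Matrix (Fin n) (Fin n) ℝ) (Ω : Set (Pt n)) (r : ℕ)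
    (τ : (m : ℕ) → TF n m), IsMetricOn g Ω → ∀ p ∈ Ω, EqR g r τ p → Nd g r p →
    ∃ s ≤ r, Zr g s p

/-! ## D. `∇^s R = 0` on an open set -/

/-- **Up** (higher derivatives vanish).  Available: `I_Sd`.  Proof: induction on `k`.  `Zr g k` on `U`:
for `l` of length `k + 4` the function `t ↦ S g (p + t • X) (l.map (mv g p X t))` vanishes for `t` near `0`
(`U` is open, `IsMetricOn.isOpen`), so its derivative `S g p (X :: l)` at `0` is `0`
(`HasDerivAt.unique`, `Filter.EventuallyEq.hasDerivAt_iff`). -/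
def S_Up : Prop :=
  ∀ (n : ℕ) (g : Pt n → Matrix (Fin n) (Fin n) ℝ) (U : Set (Pt n)), IsMetricOn g U →
    ∀ s, (∀ x ∈ U, Zr g s x) → ∀ k, s ≤ k → ∀ x ∈ U, Zr g k x

/-- **Kv** (all curvature endomorphisms annihilate all `∇^j R`).  Available: `I_La`, `I_Sr`, `I_Ds`,
`S_Up`.  Proof.  If `k ≥ s + 4` then `S = 0` on lists of length `k` (`S_Up`), so `dS = 0` (`I_La` (2) with
`G = 0`; `dS` of the zero function is `0`, induction).  If `k = s + 3` or `k = s + 2` (and `k ≥ 4`): `I_Sr`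
for `l` of length `k`: the left side is `0` because the lists have length `≥ s + 4`.  If `4 ≤ k`, `k < s + 2`:
downward induction in steps of two with `I_Ds` (strong induction on `s + 4 - k`). -/
def S_Kv : Prop :=
  ∀ (n : ℕ) (g : Pt n → Matrix (Fin n) (Fin n) ℝ) (U : Set (Pt n)), IsMetricOn g U →
    ∀ s, 1 ≤ s → (∀ x ∈ U, Zr g s x) → ∀ x ∈ U, ∀ a b k, 4 ≤ k → Kl g x (Rv g x a b) k

/-- **Cm** (all letters commute).  Available: `I_Sd`, `I_Sr`, `S_Kv`.  Proof: induction on `u`, for all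
`x ∈ U` at once.  `u = []`: `I_Sr` and `S_Kv`.  Step: as in `S_Up`, differentiate the identity at the points
`x + t • X` on the moved lists (`I_Sd`, second part; `List.map_append`). -/
def S_Cm : Prop :=
  ∀ (n : ℕ) (g : Pt n → Matrix (Fin n) (Fin n) ℝ) (U : Set (Pt n)), IsMetricOn g U →
    ∀ s, 1 ≤ s → (∀ x ∈ U, Zr g s x) → ∀ (u : List (Pt n)), ∀ x ∈ U, ∀ (a b : Pt n)
      (l : List (Pt n)), 4 ≤ l.length → S g x (u ++ a :: b :: l) = S g x (u ++ b :: a :: l)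

/-- **F1**.  Available: `I_La`, `S_Lz`, `S_Up`, `S_Cm`.  Proof.  `S_Lz` with `u = Z`: the left side is `0`
(`S_Cm`), so `∑_{(A,B) ∈ spl Z} TT g x A B a b l = 0`.  If `B ≠ []` then the lists `B ++ l'` (`l'` of the
length `s + 3` of `l`) have length `≥ s + 4`, so `S = 0` on them (`S_Up`) and `TT g x A B a b l = 0` (`I_La`
(2)).  Exactly one element of the list `spl Z` has `B = []`, namely `(Z, [])`: if `f(A,B) = 0` for all
`B ≠ []` then `((spl Z).map f).sum = f(Z, [])` (induction on `Z`, generalising `f`).  `TT g x Z [] a b l` is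
the claim. -/
def S_F1 : Prop :=
  ∀ (n : ℕ) (g : Pt n → Matrix (Fin n) (Fin n) ℝ) (U : Set (Pt n)), IsMetricOn g U →
    ∀ s, 1 ≤ s → (∀ x ∈ U, Zr g s x) → ∀ x ∈ U, ∀ (Z : List (Pt n)) (a b : Pt n)
      (l : List (Pt n)), Z.length + 1 = s → l.length = s + 3 →
      dS (S g x) l (l.map (Rw g x Z a b)) = 0

/-- **F2**.  Available: `I_La`, `I_Sb`, `S_Rp`, `S_Lz`, `S_Up`, `S_Cm`, `S_F1`.  Write `z^k` for
`List.replicate k z`.  Proof.  `S_Lz` with `u = z^s`, `l` of length `s + 2`: the left side is `0` (`S_Cm`).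
The elements of `spl (z^s)` are `(z^i, z^{s-i})`.  If `B = []`: `A = z^s` and `Rw g x A a b v = 0` for all `v`
(`S_Rp` (1), (2), `S_Up`: the list has length `s + 4`), so `TT = 0` (`I_La` (3)).  If `B` has length `≥ 2`:
the lists `B ++ l'` have length `≥ s + 4`, `TT = 0`.  The `s` elements with `B` of length `1` are all
`(z^{s-1}, [z])`.  Lemma: if `f(A,B) = 0` for all `B` with `B.length ≠ 1`, then
`((spl (z^k)).map f).sum = k * f(z^{k-1}, [z])` (induction on `k`, with the lemma of `S_F1`).  So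
`s * TT g x (z^{s-1}) [z] a b l = 0`, i.e. with `Φ = Rw g x (z^{s-1}) a b`
`dS (fun l' => S g x (z :: l')) l (l.map Φ) = 0`.  `S_F1` with `Z = z^{s-1}` and the list `z :: l`:
`S g x (Φ z :: l) + dS (fun l' => S g x (z :: l')) l (l.map Φ) = 0`.  So `S g x (Φ z :: l) = 0`. -/
def S_F2 : Prop :=
  ∀ (n : ℕ) (g : Pt n → Matrix (Fin n) (Fin n) ℝ) (U : Set (Pt n)), IsMetricOn g U →
    ∀ s, 2 ≤ s → (∀ x ∈ U, Zr g s x) → ∀ x ∈ U, ∀ (z a b : Pt n) (l : List (Pt n)),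
      l.length = s + 2 → S g x (Rw g x (List.replicate (s - 1) z) a b z :: l) = 0

/-- **Pl** (polarisation).  Available: `I_La`.  Proof.
(1) `HasDerivAt (fun t => F (L.map fun e => e.1 + t • e.2)) (dS F (L.map Prod.fst) (L.map Prod.snd)) 0` for
`F` multilinear on lists of the length of `L`: induction on `L`, generalising `F`.  For `e :: L`:
`F((e.1 + t e.2) :: l_t) = F(e.1 :: l_t) + t F(e.2 :: l_t)` by linearity in the first slot; the derivative
at `0` is `dS (F (e.1 :: ·)) … + F (e.2 :: L.map Prod.fst)` (product rule; `t ↦ F(e.2 :: l_t)` is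
differentiable by induction), which is `dS F` by definition.
(2) `F` symmetric under exchange of neighbours in the first `k` slots and `F(z^k ++ m) = 0` for all `z`
(fixed `m`): then `F(Z ++ m) = 0` for all `Z` of length `k`.  Induction on `k`, generalising `F`.  `k = 0`
clear.  `k + 1`: apply (1) to `F(· ++ m)` and the list of pairs `(z, w)`: the derivative at `0` of the zero
function, `0 = dS (F(· ++ m)) (z^{k+1}) (w^{k+1}) = ∑_{i ≤ k} F(z^i ++ w :: z^{k-i} ++ m)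
= (k+1) F(w :: z^k ++ m)` (all summands agree by symmetry, induction on `i`).  So for every `w` the function
`F(w :: ·)` satisfies the hypotheses for `k`, so `F(w :: Z ++ m) = 0`. -/
def S_Pl : Prop :=
  ∀ (V : Type) [AddCommGroup V] [Module ℝ V],
    (∀ (L : List (V × V)) (F : List V → ℝ), MlL F L.length →
      HasDerivAt (fun t : ℝ => F (L.map fun e => e.1 + t • e.2))
        (dS F (L.map Prod.fst) (L.map Prod.snd)) 0) ∧
    ∀ (k : ℕ) (F : List V → ℝ) (m : List V), MlL F (k + m.length) →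
      (∀ (u : List V) (a b : V) (l : List V), u.length + 2 + l.length = k →
        F (u ++ a :: b :: (l ++ m)) = F (u ++ b :: a :: (l ++ m))) →
      (∀ z, F (List.replicate k z ++ m) = 0) →
      ∀ Z : List V, Z.length = k → F (Z ++ m) = 0

/-- **Al** (the algebra for `∇^k R`, `k = s - 1 ≥ 1`).  Available: `I_La`, `S_Pl`.
Write `F(Z;a,b,c,d) = F(Z ++ [a,b,c,d])`, `z^k = List.replicate k z`; the letters (the first `k` entries) may
be permuted (`hs`).  `E` = the set of `a` with `F(a :: l) = 0` for all `l` of length `k + 3`; it is a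
submodule (linearity in the first slot); `v ⊥ E` means `B v e = 0` for all `e ∈ E`.  Proof.
(i) For `v ⊥ E` and all `z, a, b`: `F(z^k;a,b,z,v) = B(y,v) = 0`, because the vector `y` of `hE` is in `E`.
(ii) For `v ⊥ E` and all `z, w, a, b`: `k F(w, z^{k-1};a,b,z,v) + F(z^k;a,b,w,v) = 0`.  Put the vector
`z + t w` in (i) and differentiate at `t = 0` (`S_Pl` (1) for the list of pairs
`(z,w)^k ++ [(a,0), (b,0), (z,w), (v,0)]`; the value is `0` for all `t`):
`∑_{i<k} F(z^i, w, z^{k-1-i};a,b,z,v) + F(z^k;a,b,w,v) = 0` (entries `0` give `0`), and all summands are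
`F(w, z^{k-1};a,b,z,v)` by `hs`.
(iii) For `v, w ⊥ E` and all `z, a, b`: `F(z^k;a,b,w,v) = 0`.  `hb` for the letters `z^{k-1}`, the vectors
`(z, w, v)` and `(a, b)`: `F(z^{k-1},z;w,v,a,b) + F(z^{k-1},w;v,z,a,b) + F(z^{k-1},v;z,w,a,b) = 0`.  By pair
symmetry, `hs` (move the last letter to the front) and skewness the second term is
`-F(w,z^{k-1};a,b,z,v) = (1/k) F(z^k;a,b,w,v)` (by (ii)), the third is
`F(v,z^{k-1};a,b,z,w) = -(1/k) F(z^k;a,b,v,w) = (1/k) F(z^k;a,b,w,v)` (by (ii) with `v, w` exchanged,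
`w ⊥ E`), the first is `F(z^k;a,b,w,v)`.  So `(1 + 2/k) F(z^k;a,b,w,v) = 0`.
(iv) For `e ∈ E`, `v ⊥ E`: (ii) with `w = e`: `F(e, z^{k-1};…) = 0`, so `F(z^k;a,b,e,v) = 0`.
(v) So `F(z^k;a,b,c,v) = 0` for all `c` and all `v ⊥ E` (`hp`: `c = e + w`, `e ∈ E`, `w ⊥ E`).
(vi) For `c, d ∈ E`: `hb` for `(z, c, d)` and `(a, b)`: the terms `F(z^{k-1},c;…)`, `F(z^{k-1},d;…)` have a
letter in `E`, so `F(z^k;c,d,a,b) = 0`.  By (v), (vi) and `hp` (decompose `d`, and then `c`; skewness)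
`F(z^k;a,b,c,d) = 0` for all `z, a, b, c, d`.
(vii) `S_Pl` (2) with `m = [a,b,c,d]`: `F = 0`. -/
def S_Al : Prop :=
  ∀ (V : Type) [AddCommGroup V] [Module ℝ V] (B : V → V → ℝ) (k : ℕ) (F : List V → ℝ), IP B →
    (∀ K : Submodule ℝ V, ∀ v : V, ∃ u ∈ K, ∀ a ∈ K, B (v - u) a = 0) → 1 ≤ k →
    MlL F (k + 4) →
    (∀ (u : List V) (a b : V) (l : List V), u.length + 2 + l.length = k + 4 → 4 ≤ l.length →
      F (u ++ a :: b :: l) = F (u ++ b :: a :: l)) →
    (∀ w : List V, w.length = k → Crvt fun a b c d => F (w ++ [a, b, c, d])) →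
    (∀ (w : List V) (z a b c d : V), w.length + 1 = k → F (w ++ [z, a, b, c, d])
      + F (w ++ [a, b, z, c, d]) + F (w ++ [b, z, a, c, d]) = 0) →
    (∀ z a b : V, ∃ y : V, (∀ v, B y v = F (List.replicate k z ++ [a, b, z, v])) ∧
      ∀ l : List V, l.length = k + 3 → F (y :: l) = 0) →
    ∀ l : List V, l.length = k + 4 → F l = 0

/-- **Rs** (`∇^s R = 0` implies `∇^{s-1} R = 0`).  Available: `KO.S_Onb`, `I_Sb`, `I_Sc`, `S_Rp`, `S_Cm`,
`S_F2`, `S_Al`.  Proof: `S_Al` for `V = Pt n`, `B = ip g x`, `k = s - 1`, `F = S g x`; `hE` with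
`y = Rw g x (List.replicate (s - 1) z) a b z` (`S_Rp` (1), `S_F2`). -/
def S_Rs : Prop :=
  ∀ (n : ℕ) (g : Pt n → Matrix (Fin n) (Fin n) ℝ) (U : Set (Pt n)), IsMetricOn g U →
    ∀ s, 2 ≤ s → (∀ x ∈ U, Zr g s x) → ∀ x ∈ U, Zr g (s - 1) x

/-- **R1** (`∇^s R = 0` implies `∇R = 0`).  Available: `S_Up`, `S_Rs`.  Proof: `s = 0`: `S_Up`.  `s ≥ 1`:
induction on `s` with `S_Rs`. -/
def S_R1 : Prop :=
  ∀ (n : ℕ) (g : Pt n → Matrix (Fin n) (Fin n) ℝ) (U : Set (Pt n)), IsMetricOn g U →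
    ∀ s, (∀ x ∈ U, Zr g s x) → ∀ x ∈ U, Zr g 1 x

/-! ## E. the end -/

/-- **Tp** (one of finitely many closed sets contains an open set).  Available: `I_Sb`.
Proof: induction on `r`, generalising `U₀`.  `V = {x ∈ U₀ : Zr g r x does not hold}` is open: it is the union
over `l` of length `r + 4` of the sets `{x ∈ U₀ : S g x l ≠ 0}`, and `x ↦ S g x l` is continuous on `Ω ⊇ U₀`
(`I_Sb`).  If `V = ∅` take `U = U₀`, `s = r`.  If `V ≠ ∅`: for `r = 0` the open nonempty set `V` contains a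
point of `Dn` (`V ⊆ closure Dn`), and there `Zr g s` holds for some `s ≤ 0`, a contradiction; for `r = r' + 1`
apply the induction hypothesis to `V` and `r'`: at the points of `V ∩ Dn` there is `s ≤ r` with `Zr g s`, and
`s ≠ r`. -/
def S_Tp : Prop :=
  ∀ (n : ℕ) (g : Pt n → Matrix (Fin n) (Fin n) ℝ) (Ω : Set (Pt n)), IsMetricOn g Ω →
    ∀ (r : ℕ) (Dn U₀ : Set (Pt n)), U₀ ⊆ Ω → IsOpen U₀ → U₀.Nonempty → U₀ ⊆ closure Dn →
    (∀ x ∈ U₀, x ∈ Dn → ∃ s ≤ r, Zr g s x) →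
    ∃ s ≤ r, ∃ U ⊆ U₀, IsOpen U ∧ U.Nonempty ∧ ∀ x ∈ U, Zr g s x

/-- **Mn** (the theorem in the internal formalism).  Available: `I_Sb`, `S_Pw`, `S_R1`, `S_Tp`.
Proof.  Suppose `S g p l₀ ≠ 0` for some `p ∈ Ω`, `l₀` of length `5`.  `U₀ = {x ∈ Ω : S g x l₀ ≠ 0}` is open
(`I_Sb`), nonempty, contained in `Ω ⊆ closure Dn`.  For `x ∈ U₀ ∩ Dn`: `S_Pw`.  `S_Tp`: an open nonempty
`U ⊆ U₀` and `s` with `Zr g s` on `U`.  `IsMetricOn g U` (restriction).  `S_R1`: `Zr g 1` on `U`, so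
`S g x l₀ = 0` for `x ∈ U`: contradiction. -/
def S_Mn : Prop :=
  ∀ (n : ℕ) (g : Pt n → Matrix (Fin n) (Fin n) ℝ) (Ω : Set (Pt n)) (r : ℕ)
    (τ : (m : ℕ) → TF n m) (Dn : Set (Pt n)), IsMetricOn g Ω → Ω ⊆ closure Dn →
    (∀ x ∈ Ω, x ∈ Dn → Nd g r x) → (∀ x ∈ Ω, EqR g r τ x) → ∀ x ∈ Ω, Zr g 1 x

/-- **En** (back to components).  Available: `I_Br1`.  Proof: `I_Br1` with the list `[c]`:
`∑_e g_{ed} nablaR g 1 e [c, b, m, q] = S(…) = 0` for all `d`; multiply by `(g x)⁻¹` (`g x` is invertible). -/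
def S_En : Prop :=
  ∀ (n : ℕ) (g : Pt n → Matrix (Fin n) (Fin n) ℝ) (Ω : Set (Pt n)), IsMetricOn g Ω →
    ∀ x ∈ Ω, Zr g 1 x → ∀ a c b m q, nablaR g 1 a [c, b, m, q] x = 0

/-- **Fin** (the final statement).  Available: `I_Br2`, `S_Du`, `S_Mn`, `S_En`. -/
def S_Fin : Prop :=
  ∀ (n r : ℕ) (g : Pt n → Matrix (Fin n) (Fin n) ℝ) (Ω : Set (Pt n)), IsMetricOn g Ω →
    ∀ t : ℕ → List (Fin n) → Pt n → ℝ, (∀ x ∈ Ω, KSAt g r (fun m l => t m l x) x) →
    Ω ⊆ closure {x | ∀ E ∈ hol g r x, E.rank ≠ 2} →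
    ∀ x ∈ Ω, ∀ a c b m q, nablaR g 1 a [c, b, m, q] x = 0

end

end Pool.Agent.Lib.MP_9d59e9_gt.ND
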