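import Pool.Agent.Lib.MP_9d59e9_gt.KS.All
import Pool.Agent.Lib.MP_9d59e9_gt.ND.Spec

/-!
# MP_9d59e9_gt, project ND: the interface statements follow from the projects KO and KS
-/

set_option autoImplicit false

namespace Pool.Agent.Lib.MP_9d59e9_gt.ND

open scoped BigOperators ContDiff
open Set KO

noncomputable section

theorem dS_eq {V : Type} (l : List V) : ∀ (F : List V → ℝ) (m : List V), dS F l m = KS.dS F l m := by
  induction l with
  | nil =>
    intro F m
    cases m <;> rfl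
  | cons a l ih =>
    intro F m
    cases m with
    | nil => rfl
    | cons b m =>
      show F (b :: l) + dS (fun l' => F (a :: l')) l m
        = F (b :: l) + KS.dS (fun l' => F (a :: l')) l m
      rw [ih]

theorem dS_eq' {V : Type} : (dS : (List V → ℝ) → List V → List V → ℝ) = KS.dS := by
  funext F l m
  exact dS_eq l F m

theorem SJ_eq {n : ℕ} (g : Pt n → Matrix (Fin n) (Fin n) ℝ) (j : ℕ) : SJ g j = KS.SJ g j := by
  induction j with
  | zero => rfl
  | succ j ih =>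
    show D g (SJ g j) = D g (KS.SJ g j)
    rw [ih]

theorem S_eq {n : ℕ} (g : Pt n → Matrix (Fin n) (Fin n) ℝ) (x : Pt n) : S g x = KS.S g x := by
  funext l
  show el (SJ g (l.length - 4)) x l = KS.el (KS.SJ g (l.length - 4)) x l
  rw [SJ_eq]
  rfl

theorem iLa : I_La := by
  intro V _ _
  obtain ⟨h1, -, h3, h4, h5, -, h7, h8, h9⟩ := KS.sLa V
  rw [dS_eq']
  exact ⟨h1, h3, h4, h5, fun F k hF Φ hΦ => h7 F k hF Φ ⟨hΦ.add, hΦ.smul⟩, h8, h9⟩

theorem iEx : I_Ex := by
  intro n k F hF h l hl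
  obtain ⟨-, -, h3⟩ := KS.sAd (Pt n) n fun i => bv i
  refine h3 k F hF ?_ ?_ l hl
  · intro v
    refine ⟨v, ?_⟩
    funext i
    rw [Finset.sum_apply]
    simp [Pi.single_apply]
  · intro l hl hv
    have hex : ∀ l : List (Pt n), (∀ v ∈ l, ∃ i : Fin n, v = bv i) →
        ∃ c : List (Fin n), l = c.map fun i => bv i := by
      intro l
      induction l with
      | nil => exact fun _ => ⟨[], rfl⟩
      | cons v l ih =>
        intro h
        obtain ⟨i, hi⟩ := h v List.mem_cons_self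
        obtain ⟨c, hc⟩ := ih fun w hw => h w (List.mem_cons_of_mem _ hw)
        exact ⟨i :: c, by rw [List.map_cons, ← hi, ← hc]⟩
    obtain ⟨c, rfl⟩ := hex l hv
    rw [List.length_map] at hl
    exact h c hl

theorem iSb : I_Sb := by
  intro n g x
  obtain ⟨⟨h1, h2⟩, ⟨h3, -, -, -⟩, -, h4, -⟩ := KS.sSb n g x
  rw [S_eq]
  refine ⟨h1, h2, h3, ?_⟩
  intro Ω hg
  have hsm : ∀ j, Sm Ω (SJ g j) := fun j => by
    rw [SJ_eq]
    exact h4 Ω hg j
  refine ⟨hsm, ?_⟩
  intro l _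
  obtain ⟨-, -, -, -, -, -, -, -, -, -, -, h⟩ := KO.sSmo n g Ω hg
  exact (h _ _ (hsm (l.length - 4)) _).continuousOn

theorem iSd : I_Sd := by
  intro n g Ω hg p hp X
  obtain ⟨h1, h2⟩ := KS.sSd n g Ω hg p hp X
  have e : S g = KS.S g := funext fun x => S_eq g x
  rw [e, dS_eq']
  exact ⟨h1, h2⟩

theorem iSr : I_Sr := by
  intro n g Ω hg p hp x y l hl
  rw [S_eq, dS_eq']
  exact KS.sSr n g Ω hg p hp x y l hl

theorem iSc : I_Sc := by
  intro n g Ω hg x hx w
  rw [S_eq]
  exact KS.sSc n g Ω hg x hx w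

theorem iDs : I_Ds := by
  intro n g Ω hg p hp x y k hk h
  have h1 := KS.sDs n g Ω hg p hp 2 ![x, y] !![0, 1; 0, 0] (Rv g p x y) (by
    intro a
    simp [Fin.sum_univ_two]) k hk
  intro l hl
  have h2 : KS.Kl g p (Rv g p x y) (k + 2) := by
    intro l hl
    have h3 := h l hl
    rw [S_eq, dS_eq'] at h3
    exact h3
  rw [S_eq, dS_eq']
  exact h1 h2 l hl

theorem iBr1 : I_Br1 := by
  intro n g Ω hg x hx c m p b d
  rw [S_eq]
  exact KS.sBr1 n g Ω hg x hx c m p b d

theorem iBr2 : I_Br2 := by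
  intro n g Ω r hg t ht x hx l hl
  rw [S_eq]
  exact KS.sBr2 n g Ω r hg t ht x hx l hl

end

end Pool.Agent.Lib.MP_9d59e9_gt.ND
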