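import Pool.Agent.Lib.MP_9d59e9_gt.ND.Spec

/-!
# MP_9d59e9_gt, project ND: all letters are parallel to `e`
-/

set_option autoImplicit false

namespace Pool.Agent.Lib.MP_9d59e9_gt.ND

open scoped BigOperators ContDiff
open Set KO

noncomputable section

theorem tLt (h1 : KO.S_Onb) (h2 : I_Sb) (h3 : S_Nl) : S_Lt := by
  intro n g Ω r hg p hp hNd s hs e he h0
  obtain ⟨-, hIP, -⟩ := h1 n g p (hg.pos p hp)
  obtain ⟨-, hML, -, -⟩ := h2 n g p
  have hlin : Lin1 fun x => ip g p e x := by
    have h := hIP.lin e
    refine ⟨fun a b => ?_, fun c a => ?_⟩
    · rw [hIP.symm e (a + b), hIP.symm e a, hIP.symm e b]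
      exact h.add a b
    · rw [hIP.symm e (c • a), hIP.symm e a]
      exact h.smul c a
  have key : ∀ (k : ℕ) (u : List (Pt n)) (z : Pt n) (l : List (Pt n)), u.length = k →
      u.length + 1 + l.length = s + 4 → 4 ≤ l.length → ip g p e z = 0 →
      S g p (u ++ z :: l) = 0 := by
    intro k
    induction k with
    | zero =>
      intro u z l hu hl h4 hz
      have hu0 : u = [] := List.length_eq_zero_iff.1 hu
      subst hu0
      have hl' : l.length = s + 3 := by
        simp only [List.length_nil] at hl
        omega
      rw [List.nil_append]
      exact h0 z hz l hl'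
    | succ k ih =>
      intro u z l hu hl h4 hz
      have hne : u ≠ [] := by
        rintro rfl
        simp at hu
      obtain ⟨u₀, x, rfl⟩ : ∃ u₀ x, u = u₀ ++ [x] :=
        ⟨u.dropLast, u.getLast hne, (List.dropLast_append_getLast hne).symm⟩
      rw [List.length_append, List.length_singleton] at hu hl
      have hk : u₀.length = k := by omega
      -- linearity
      have L1 : ∀ y, Lin1 fun a => S g p (u₀ ++ a :: (y :: l)) := by
        intro y
        refine hML (s + 4) (by omega) u₀ (y :: l) ?_
        rw [List.length_cons]
        omega
      have L2 : ∀ a, Lin1 fun y => S g p (u₀ ++ a :: (y :: l)) := by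
        intro a
        have h := hML (s + 4) (by omega) (u₀ ++ [a]) l (by
          rw [List.length_append, List.length_singleton]
          omega)
        have e1 : (fun y => S g p (u₀ ++ a :: (y :: l))) =
            fun y => S g p ((u₀ ++ [a]) ++ y :: l) := by
          funext y
          rw [List.append_assoc, List.singleton_append]
        rw [e1]
        exact h
      have hx : ∀ a y, S g p (u₀ ++ a :: (y :: l)) =
          ip g p e a * S g p (u₀ ++ e :: (y :: l)) := by
        intro a y
        have h5 : ip g p e (a + (-(ip g p e a)) • e) = 0 := by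
          rw [hlin.add, hlin.smul, he]
          ring
        have h6 := ih u₀ (a + (-(ip g p e a)) • e) (y :: l) hk (by
          rw [List.length_cons]
          omega) (by
          rw [List.length_cons]
          omega) h5
        have h7 := (L1 y).add a ((-(ip g p e a)) • e)
        have h8 := (L1 y).smul (-(ip g p e a)) e
        rw [h7, h8] at h6
        linarith
      have hN := hNd (fun a => ip g p e a) (fun y => S g p (u₀ ++ e :: (y :: l))) hlin (L2 e)
        (by
          intro C hC
          have h5 := h3 n g Ω r hg p hp C hC u₀ l (by omega) h4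
          rw [← h5]
          refine Finset.sum_congr rfl fun i _ => Finset.sum_congr rfl fun j _ => ?_
          rw [hx (bv i) (bv j), hx (bv j) (bv i)])
      have h9 := hN x z
      rw [hz, zero_mul] at h9
      rw [List.append_assoc, List.singleton_append, hx x z, h9]
  intro u z l hl h4 hz
  exact key u.length u z l rfl hl h4 hz

end

end Pool.Agent.Lib.MP_9d59e9_gt.ND
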